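import Pool.Agent.Lib.MP_f75418_nt.AP.Grid

/-!
# The sums `W m q` on average
-/

open Finset

namespace Pool.Agent.Lib.MP_f75418_nt

/-- multiplication by a unit permutes the reduced residues -/
lemma sum_red_perm {q k : ℕ} (hq : 0 < q) (hk : Nat.Coprime k q) (κ : ℝ) (L : ℕ) :
    ∑ c ∈ red q, GG κ L ((k : ℝ) * ((c : ℝ) / q)) = ∑ c ∈ red q, GG κ L ((c : ℝ) / q) := by
  classical
  have hq' : (q : ℝ) ≠ 0 := by exact_mod_cast hq.ne'
  have h1 : ∀ c ∈ red q, GG κ L ((k : ℝ) * ((c : ℝ) / q)) =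
      (fun c : ℕ => GG κ L ((c : ℝ) / q)) (k * c % q) := by
    intro c _
    simp only
    have h := Nat.mod_add_div (k * c) q
    have h' : ((k * c % q : ℕ) : ℝ) + q * ((k * c / q : ℕ) : ℝ) = k * c := by exact_mod_cast h
    have e : (k : ℝ) * ((c : ℝ) / q) = ((k * c % q : ℕ) : ℝ) / q + (((k * c / q : ℕ) : ℤ) : ℝ) := by
      rw [Int.cast_natCast, ← mul_div_assoc, ← h']
      field_simp
    rw [e, GG_add_int]
  rw [Finset.sum_congr rfl h1]
  have hinj : Set.InjOn (fun c => k * c % q) (red q : Set ℕ) := by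
    intro a ha b hb hab
    have ha' := (mem_red.mp (Finset.mem_coe.mp ha)).1
    have hb' := (mem_red.mp (Finset.mem_coe.mp hb)).1
    have h2 : k * a ≡ k * b [MOD q] := hab
    have h3 : a ≡ b [MOD q] := Nat.ModEq.cancel_left_of_coprime hk.symm h2
    have h4 : a % q = b % q := h3
    rwa [Nat.mod_eq_of_lt ha', Nat.mod_eq_of_lt hb'] at h4
  rw [← Finset.sum_image (s := red q) (g := fun c => k * c % q)
    (f := fun c : ℕ => GG κ L ((c : ℝ) / q)) hinj]
  congr 1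
  apply Finset.eq_of_subset_of_card_le
  · intro x hx
    obtain ⟨c, hc, rfl⟩ := Finset.mem_image.mp hx
    rw [mem_red] at hc ⊢
    refine ⟨Nat.mod_lt _ hq, ?_⟩
    have h5 : Nat.Coprime (k * c) q := Nat.Coprime.mul_left hk hc.2
    have h6 : Nat.gcd (k * c % q) q = Nat.gcd (k * c) q := by
      rw [Nat.gcd_comm, Nat.gcd_comm (k * c) q]
      exact (Nat.gcd_rec q (k * c)).symm ▸ (by rw [Nat.gcd_comm])
    rw [Nat.coprime_iff_gcd_eq_one, h6]
    exact h5
  · rw [Finset.card_image_of_injOn hinj]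

lemma coprime_24 {q : ℕ} (hq : Nat.Coprime q 6) (j : ℕ) : Nat.Coprime (9 ^ j * 24) q := by
  have h3 : Nat.Coprime 3 q := (Nat.Coprime.coprime_dvd_right (by norm_num : 3 ∣ 6) hq).symm
  have h2 : Nat.Coprime 2 q := (Nat.Coprime.coprime_dvd_right (by norm_num : 2 ∣ 6) hq).symm
  have h9 : Nat.Coprime 9 q := by
    have : Nat.Coprime (3 ^ 2) q := h3.pow_left 2
    norm_num at this
    exact this
  have h8 : Nat.Coprime 8 q := by
    have : Nat.Coprime (2 ^ 3) q := h2.pow_left 3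
    norm_num at this
    exact this
  have h24 : Nat.Coprime 24 q := by
    have : Nat.Coprime (8 * 3) q := h8.mul_left h3
    norm_num at this
    exact this
  exact (h9.pow_left j).mul_left h24

/-- blocks: the arithmetic-geometric inequality -/
theorem W_le_block {q m L : ℕ} (hq : 0 < q) (hq6 : Nat.Coprime q 6) (hm : 2430 * L ≤ m) :
    W m q ≤ ∑ c ∈ red q, GG 648 L ((c : ℝ) / q) := by
  unfold W
  have h1 : ∀ c ∈ red q, GG (4 / 15) m (24 * ((c : ℝ) / q)) ≤
      ∑ j ∈ Finset.range 2430, (1 / 2430 : ℝ) *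
        GG 648 L (((9 ^ (j * L) * 24 : ℕ) : ℝ) * ((c : ℝ) / q)) := by
    intro c _
    refine (GG_anti (by norm_num) hm _).trans ?_
    unfold GG
    rw [QQ_mul]
    have h2 := convexOn_exp.map_sum_le (t := Finset.range 2430) (w := fun _ => (1 / 2430 : ℝ))
      (p := fun j => -(648 * QQ L (9 ^ (j * L) * (24 * ((c : ℝ) / q)))))
      (fun _ _ => by norm_num) (by simp) (fun _ _ => Set.mem_univ _)
    simp only [smul_eq_mul] at h2
    have e1 : -(4 / 15 * ∑ j ∈ Finset.range 2430, QQ L (9 ^ (j * L) * (24 * ((c : ℝ) / q)))) =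
        ∑ j ∈ Finset.range 2430, (1 / 2430 : ℝ) *
          (-(648 * QQ L (9 ^ (j * L) * (24 * ((c : ℝ) / q))))) := by
      rw [Finset.mul_sum, ← Finset.sum_neg_distrib]
      refine Finset.sum_congr rfl fun j _ => ?_
      ring
    rw [e1]
    refine h2.trans (le_of_eq ?_)
    refine Finset.sum_congr rfl fun j _ => ?_
    congr 5
    push_cast
    ring
  refine (Finset.sum_le_sum h1).trans ?_
  rw [Finset.sum_comm]
  have h3 : ∀ j ∈ Finset.range 2430, ∑ c ∈ red q, (1 / 2430 : ℝ) *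
      GG 648 L (((9 ^ (j * L) * 24 : ℕ) : ℝ) * ((c : ℝ) / q)) =
      (1 / 2430 : ℝ) * ∑ c ∈ red q, GG 648 L ((c : ℝ) / q) := by
    intro j _
    rw [← Finset.mul_sum, sum_red_perm hq (coprime_24 hq6 _)]
  rw [Finset.sum_congr rfl h3, Finset.sum_const, Finset.card_range, nsmul_eq_mul]
  push_cast
  apply le_of_eq
  ring

/-- among `L` consecutive terms one is at least `1/18` -/
lemma QQ_block_ge {q k L : ℕ} (hq2 : 2 ≤ q) (hk : Nat.Coprime k q) (hL : q ≤ 9 ^ L) :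
    1 / 324 ≤ QQ L ((k : ℝ) / q) := by
  have hq0 : 0 < q := by omega
  by_contra hcon
  push Not at hcon
  have h1 : ∀ i < L, nn (9 ^ i * ((k : ℝ) / q)) < 1 / 18 := by
    intro i hi
    by_contra h2
    push Not at h2
    have h3 : (1 / 18 : ℝ) ^ 2 ≤ nn (9 ^ i * ((k : ℝ) / q)) ^ 2 := pow_le_pow_left₀ (by norm_num) h2 2
    have h4 : nn (9 ^ i * ((k : ℝ) / q)) ^ 2 ≤ QQ L ((k : ℝ) / q) :=
      Finset.single_le_sum (f := fun i => nn (9 ^ i * ((k : ℝ) / q)) ^ 2)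
        (fun _ _ => sq_nonneg _) (Finset.mem_range.mpr hi)
    have h5 : (1 / 18 : ℝ) ^ 2 = 1 / 324 := by norm_num
    linarith
  have h2 : ∀ i ≤ L, nn (9 ^ i * ((k : ℝ) / q)) = 9 ^ i * nn ((k : ℝ) / q) := by
    intro i hi
    induction i with
    | zero => simp
    | succ i ih =>
      have h3 := ih (by omega)
      have h4 := nn_nine_mul (h1 i (by omega))
      rw [pow_succ, mul_comm (9 ^ i : ℝ) 9, mul_assoc, h4, h3]
      ring
  have h3 := h2 L le_rfl
  have h4 := nn_le_half (9 ^ L * ((k : ℝ) / q))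
  have hnd : ¬ (q : ℤ) ∣ (k : ℤ) := by
    intro h
    have h5 : q ∣ k := Int.natCast_dvd_natCast.mp h
    have h6 : Nat.gcd k q = q := Nat.gcd_eq_right h5
    have h7 : Nat.gcd k q = 1 := hk
    omega
  have h5 := nn_div_ge hq0 hnd
  have hq' : (0 : ℝ) < q := by exact_mod_cast hq0
  have h6 : (q : ℝ) ≤ 9 ^ L := by exact_mod_cast hL
  have h7 : (1 : ℝ) ≤ 9 ^ L * (1 / q) := by
    rw [mul_one_div, le_div_iff₀ hq', one_mul]
    exact h6
  have h8 : (9 : ℝ) ^ L * (1 / q) ≤ 9 ^ L * nn (((k : ℤ) : ℝ) / q) :=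
    mul_le_mul_of_nonneg_left h5 (by positivity)
  push_cast at h8
  linarith

/-- pointwise bound -/
theorem GG_sup {q k m L : ℕ} (hq2 : 2 ≤ q) (hk : Nat.Coprime k q) (hq3 : Nat.Coprime q 3)
    (hL : q ≤ 9 ^ L) : GG (4 / 15) m ((k : ℝ) / q) ≤ Real.exp (-(((m / L : ℕ) : ℝ) / 1215)) := by
  unfold GG
  rw [Real.exp_le_exp, neg_le_neg_iff]
  have h1 : QQ (m / L * L) ((k : ℝ) / q) ≤ QQ m ((k : ℝ) / q) := QQ_mono (Nat.div_mul_le_self m L) _
  have h2 : ((m / L : ℕ) : ℝ) * (1 / 324) ≤ QQ (m / L * L) ((k : ℝ) / q) := by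
    rw [QQ_mul]
    have h3 : ∀ j ∈ Finset.range (m / L), (1 / 324 : ℝ) ≤ QQ L (9 ^ (j * L) * ((k : ℝ) / q)) := by
      intro j _
      have h9 : Nat.Coprime 9 q := by
        have : Nat.Coprime (3 ^ 2) q := hq3.symm.pow_left 2
        norm_num at this
        exact this
      have h4 := QQ_block_ge (k := 9 ^ (j * L) * k) hq2 ((h9.pow_left _).mul_left hk) hL
      push_cast at h4
      rwa [mul_div_assoc] at h4
    have h4 := Finset.sum_le_sum h3
    rw [Finset.sum_const, Finset.card_range, nsmul_eq_mul] at h4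
    exact h4
  have h3 : ((m / L : ℕ) : ℝ) / 1215 = 4 / 15 * (((m / L : ℕ) : ℝ) * (1 / 324)) := by ring
  rw [h3]
  exact mul_le_mul_of_nonneg_left (h2.trans h1) (by norm_num)

/-- the sum over all denominators up to `3^Λ` -/
theorem total (m₁ m₂ Λ : ℕ) (h : 2430 * Λ ≤ m₂) :
    ∑ q ∈ (Finset.Icc 2 (3 ^ Λ)).filter (fun q => Nat.Coprime q 6), (1 / (q : ℝ)) * W (m₂ + m₁) q ≤
      3 * Real.exp 9 * ∑ L ∈ Finset.Icc 1 Λ, (2 / 3 : ℝ) ^ L *
        Real.exp (-(((m₁ / L : ℕ) : ℝ) / 1215)) := by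
  classical
  induction Λ with
  | zero => simp
  | succ Λ ih =>
    rw [Finset.sum_Icc_succ_top (by omega), mul_add]
    have ih' := ih (by omega)
    have h3 : 3 ^ Λ ≤ 3 ^ (Λ + 1) := Nat.pow_le_pow_right (by norm_num) (by omega)
    have h3' : 1 ≤ 3 ^ Λ := Nat.one_le_pow _ _ (by norm_num)
    have hsplit : (Finset.Icc 2 (3 ^ (Λ + 1))).filter (fun q => Nat.Coprime q 6) =
        (Finset.Icc 2 (3 ^ Λ)).filter (fun q => Nat.Coprime q 6) ∪
        (Finset.Ioc (3 ^ Λ) (3 ^ (Λ + 1))).filter (fun q => Nat.Coprime q 6) := by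
      ext q
      simp only [Finset.mem_union, Finset.mem_filter, Finset.mem_Icc, Finset.mem_Ioc]
      constructor
      · rintro ⟨h1, h2⟩
        by_cases h4 : q ≤ 3 ^ Λ
        · exact Or.inl ⟨⟨h1.1, h4⟩, h2⟩
        · exact Or.inr ⟨⟨by omega, h1.2⟩, h2⟩
      · rintro (⟨h1, h2⟩ | ⟨h1, h2⟩)
        · exact ⟨⟨h1.1, by omega⟩, h2⟩
        · exact ⟨⟨by omega, h1.2⟩, h2⟩
    rw [hsplit, Finset.sum_union]
    swap
    · rw [Finset.disjoint_left]
      intro q h1 h2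
      rw [Finset.mem_filter, Finset.mem_Icc] at h1
      rw [Finset.mem_filter, Finset.mem_Ioc] at h2
      omega
    refine add_le_add ih' ?_
    -- one dyadic block
    set E := Real.exp (-(((m₁ / (Λ + 1) : ℕ) : ℝ) / 1215)) with hE
    have h4 : ∀ q ∈ (Finset.Ioc (3 ^ Λ) (3 ^ (Λ + 1))).filter (fun q => Nat.Coprime q 6),
        (1 / (q : ℝ)) * W (m₂ + m₁) q ≤
          (1 / 3 ^ Λ : ℝ) * (E * ∑ c ∈ red q, GG 648 (Λ + 1) ((c : ℝ) / q)) := by
      intro q hq
      rw [Finset.mem_filter, Finset.mem_Ioc] at hq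
      obtain ⟨⟨h5, h6⟩, h7⟩ := hq
      have hq0 : 0 < q := by omega
      have hq3 : Nat.Coprime q 3 := Nat.Coprime.coprime_dvd_right (by norm_num) h7
      have h8 : (1 / (q : ℝ)) ≤ 1 / 3 ^ Λ := by
        apply one_div_le_one_div_of_le (by positivity)
        exact_mod_cast h5.le
      have h9 : W (m₂ + m₁) q ≤ E * W m₂ q := by
        unfold W
        rw [Finset.mul_sum]
        refine Finset.sum_le_sum fun c hc => ?_
        rw [GG_add, mul_comm]
        refine mul_le_mul_of_nonneg_right ?_ (GG_pos _ _ _).le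
        have hc' := mem_red.mp hc
        have h10 := GG_sup (m := m₁) (L := Λ + 1) (k := 9 ^ m₂ * 24 * c) (q := q) (by omega)
          ((coprime_24 h7 m₂).mul_left hc'.2) hq3 (by
            calc q ≤ 3 ^ (Λ + 1) := h6
              _ ≤ 9 ^ (Λ + 1) := Nat.pow_le_pow_left (by norm_num) _)
        refine le_trans (le_of_eq ?_) h10
        congr 1
        push_cast
        ring
      have h10 := W_le_block (m := m₂) (L := Λ + 1) hq0 h7 h
      have hW := W_nonneg (m₂ + m₁) q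
      have hE0 : 0 ≤ E := (Real.exp_pos _).le
      calc (1 / (q : ℝ)) * W (m₂ + m₁) q ≤ (1 / 3 ^ Λ : ℝ) * W (m₂ + m₁) q :=
            mul_le_mul_of_nonneg_right h8 hW
        _ ≤ (1 / 3 ^ Λ : ℝ) * (E * W m₂ q) := mul_le_mul_of_nonneg_left h9 (by positivity)
        _ ≤ _ := mul_le_mul_of_nonneg_left (mul_le_mul_of_nonneg_left h10 hE0) (by positivity)
    refine (Finset.sum_le_sum h4).trans ?_
    rw [← Finset.mul_sum, ← Finset.mul_sum]
    have h5 : ∑ q ∈ (Finset.Ioc (3 ^ Λ) (3 ^ (Λ + 1))).filter (fun q => Nat.Coprime q 6),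
        ∑ c ∈ red q, GG 648 (Λ + 1) ((c : ℝ) / q) ≤ Real.exp 9 * 2 ^ (Λ + 1) := by
      refine le_trans (Finset.sum_le_sum_of_subset_of_nonneg ?_ ?_) (farey (Λ + 1))
      · intro q hq
        rw [Finset.mem_filter, Finset.mem_Ioc] at hq
        rw [Finset.mem_Icc]
        omega
      · intro q _ _
        exact Finset.sum_nonneg fun c _ => (GG_pos _ _ _).le
    have hE0 : 0 ≤ E := (Real.exp_pos _).le
    calc (1 / 3 ^ Λ : ℝ) * (E * ∑ q ∈ (Finset.Ioc (3 ^ Λ) (3 ^ (Λ + 1))).filter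
          (fun q => Nat.Coprime q 6), ∑ c ∈ red q, GG 648 (Λ + 1) ((c : ℝ) / q))
        ≤ (1 / 3 ^ Λ : ℝ) * (E * (Real.exp 9 * 2 ^ (Λ + 1))) :=
          mul_le_mul_of_nonneg_left (mul_le_mul_of_nonneg_left h5 hE0) (by positivity)
      _ = 3 * Real.exp 9 * ((2 / 3 : ℝ) ^ (Λ + 1) * E) := by
          rw [div_pow, pow_succ 3 Λ]
          field_simp

end Pool.Agent.Lib.MP_f75418_nt
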