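import Pool.Agent.Lib.MP_f75418_nt.AP.NN
import Pool.Agent.Lib.MP_f75418_nt.Digits

/-!
# Exponential sums over antipalindromic numbers with lowest digit `1`
-/

open Finset

namespace Pool.Agent.Lib.MP_f75418_nt

/-- `e(t) = exp (2 π i t)` -/
noncomputable def ee (t : ℝ) : ℂ := Complex.exp (2 * Real.pi * t * Complex.I)

lemma ee_add (s t : ℝ) : ee (s + t) = ee s * ee t := by
  unfold ee
  rw [← Complex.exp_add]
  congr 1
  push_cast
  ring

lemma ee_zero : ee 0 = 1 := by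
  unfold ee
  simp

lemma norm_ee (t : ℝ) : ‖ee t‖ = 1 := by
  unfold ee
  have : (2 * Real.pi * t * Complex.I : ℂ) = ((2 * Real.pi * t : ℝ) : ℂ) * Complex.I := by
    push_cast; ring
  rw [this, Complex.norm_exp_ofReal_mul_I]

lemma ee_sum {ι : Type*} (s : Finset ι) (f : ι → ℝ) : ee (∑ i ∈ s, f i) = ∏ i ∈ s, ee (f i) := by
  classical
  induction s using Finset.induction_on with
  | empty => simp [ee_zero]
  | insert a s ha ih => rw [Finset.sum_insert ha, Finset.prod_insert ha, ee_add, ih]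

lemma ee_nat (k : ℕ) (t : ℝ) : ee (k * t) = ee t ^ k := by
  induction k with
  | zero => simp [ee_zero]
  | succ k ih =>
    rw [pow_succ, ← ih, ← ee_add]
    congr 1
    push_cast
    ring

lemma ee_int (k : ℤ) : ee k = 1 := by
  unfold ee
  rw [Complex.exp_eq_one_iff]
  exact ⟨k, by push_cast; ring⟩

lemma cos_nn (t : ℝ) : Real.cos (2 * Real.pi * t) = Real.cos (2 * Real.pi * nn t) := by
  have h1 : Real.cos (2 * Real.pi * t) = Real.cos (2 * Real.pi * (t - round t)) := by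
    have : 2 * Real.pi * (t - round t) = 2 * Real.pi * t - (round t : ℤ) * (2 * Real.pi) := by ring
    rw [this, Real.cos_sub_int_mul_two_pi]
  rw [h1]
  unfold nn
  rcases abs_cases (t - round t) with ⟨h, -⟩ | ⟨h, -⟩
  · rw [h]
  · rw [h, mul_neg, Real.cos_neg]

lemma norm_three (t : ℝ) : ‖1 + ee t + ee (2 * t)‖ ≤ 3 * Real.exp (-(8 / 3 * nn t ^ 2)) := by
  have h1 : 1 + ee t + ee (2 * t) = ee t * ((1 + 2 * Real.cos (2 * Real.pi * t) : ℝ) : ℂ) := by
    have e2 : ee (2 * t) = ee t * ee t := by rw [← ee_add]; congr 1; ring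
    have e3 : ee t * ee (-t) = 1 := by rw [← ee_add, add_neg_cancel, ee_zero]
    have e4 : ((2 * Real.cos (2 * Real.pi * t) : ℝ) : ℂ) = ee t + ee (-t) := by
      push_cast
      rw [Complex.cos]
      unfold ee
      push_cast
      have : (-(2 * (Real.pi : ℂ) * t) * Complex.I) = 2 * Real.pi * (-t) * Complex.I := by ring
      rw [this]
      ring
    have e5 : ((1 + 2 * Real.cos (2 * Real.pi * t) : ℝ) : ℂ) = 1 + (ee t + ee (-t)) := by
      rw [← e4]
      push_cast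
      ring
    rw [e2, e5]
    linear_combination - e3
  rw [h1, norm_mul, norm_ee, one_mul, Complex.norm_real, Real.norm_eq_abs, cos_nn]
  set x := nn t with hx
  have hx0 : 0 ≤ x := nn_nonneg t
  have hx1 : x ≤ 1 / 2 := nn_le_half t
  have hs : 2 * x ≤ Real.sin (Real.pi * x) := by
    have h := Real.mul_le_sin (x := Real.pi * x) (by positivity) (by
      have := Real.pi_pos
      nlinarith)
    have e : 2 / Real.pi * (Real.pi * x) = 2 * x := by field_simp
    rwa [e] at h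
  have hc : Real.cos (2 * Real.pi * x) = 1 - 2 * Real.sin (Real.pi * x) ^ 2 := by
    rw [show 2 * Real.pi * x = 2 * (Real.pi * x) by ring, Real.cos_two_mul, Real.cos_sq']
    ring
  have hcm := Real.neg_one_le_cos (2 * Real.pi * x)
  have hs2 : (2 * x) ^ 2 ≤ Real.sin (Real.pi * x) ^ 2 := pow_le_pow_left₀ (by positivity) hs 2
  have h3 : |1 + 2 * Real.cos (2 * Real.pi * x)| ≤ 3 * (1 - 8 / 3 * x ^ 2) := by
    rw [abs_le]
    constructor
    · nlinarith
    · rw [hc]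
      nlinarith
  refine h3.trans ?_
  have h4 := Real.add_one_le_exp (-(8 / 3 * x ^ 2))
  linarith

/-- the number with `2n+3` digits, lowest digit `1` and next digits `b` -/
def av (n : ℕ) (b : Fin n → Fin 3) : ℕ := val (n + 1) (Fin.cons 1 b)

/-- the coefficient `3^(2N-j) - 3^j`, `N = n+1` -/
noncomputable def cr (n j : ℕ) : ℝ := 3 ^ (2 * (n + 1) - j) - 3 ^ j

lemma cr_step {n j : ℕ} (hj : j + 1 ≤ 2 * (n + 1)) : cr n j = 3 * cr n (j + 1) + 8 * 3 ^ j := by
  unfold cr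
  have : 2 * (n + 1) - j = (2 * (n + 1) - (j + 1)) + 1 := by omega
  rw [this, pow_succ, pow_succ]
  ring

lemma av_cast (n : ℕ) : ∃ K : ℝ, ∀ b : Fin n → Fin 3,
    ((av n b : ℕ) : ℝ) = K - ∑ j : Fin n, cr n (j + 1) * (b j : ℕ) := by
  refine ⟨3 ^ 0 + (2 - 1) * 3 ^ (2 * (n + 1) - 0) +
    ∑ j : Fin n, 2 * 3 ^ (2 * (n + 1) - (j + 1)) + 3 ^ (n + 1), fun b => ?_⟩
  unfold av val
  rw [Fin.sum_univ_succ]
  simp only [Fin.cons_zero, Fin.cons_succ, Fin.val_zero, Fin.val_succ]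
  push_cast
  have h : ∀ j : Fin n, (((b j : ℕ) : ℝ) * 3 ^ ((j : ℕ) + 1) +
      ((2 - (b j : ℕ) : ℕ) : ℝ) * 3 ^ (2 * (n + 1) - ((j : ℕ) + 1))) =
      2 * 3 ^ (2 * (n + 1) - ((j : ℕ) + 1)) - cr n (j + 1) * (b j : ℕ) := by
    intro j
    have h : ((2 - (b j : ℕ) : ℕ) : ℝ) = 2 - ((b j : ℕ) : ℝ) := by
      rw [Nat.cast_sub (by have := (b j).2; omega)]
      push_cast; rfl
    rw [h]
    unfold cr
    ring
  rw [Finset.sum_congr rfl fun j _ => h j, Finset.sum_sub_distrib]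
  have h1 : ((2 - ((1 : Fin 3) : ℕ) : ℕ) : ℝ) = 2 - 1 := by norm_num
  have h2 : (((1 : Fin 3) : ℕ) : ℝ) = 1 := by norm_num
  rw [h1, h2]
  ring

lemma pair_bound (x y : ℝ) : nn (8 * y) ^ 2 ≤ 10 * (nn (3 * x + 8 * y) ^ 2 + nn x ^ 2) := by
  have h1 : nn (8 * y) ≤ nn (3 * x + 8 * y) + 3 * nn x := by
    have h2 := nn_add_le (3 * x + 8 * y) (-(3 * x))
    rw [nn_neg, show 3 * x + 8 * y + -(3 * x) = 8 * y by ring] at h2
    linarith [nn_three_mul_le x]
  have h0 := nn_nonneg (8 * y)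
  have h3 := nn_nonneg (3 * x + 8 * y)
  have h4 := nn_nonneg x
  have h5 : nn (8 * y) ^ 2 ≤ (nn (3 * x + 8 * y) + 3 * nn x) ^ 2 := pow_le_pow_left₀ h0 h1 2
  nlinarith [sq_nonneg (3 * nn (3 * x + 8 * y) - nn x)]

/-- sums over pairs -/
lemma sum_pairs_le (f : ℕ → ℝ) (hf : ∀ j, 0 ≤ f j) (n : ℕ) :
    ∑ i ∈ Finset.range (n / 2), (f (2 * i) + f (2 * i + 1)) ≤ ∑ j ∈ Finset.range n, f j := by
  have h : ∀ k, ∑ i ∈ Finset.range k, (f (2 * i) + f (2 * i + 1)) = ∑ j ∈ Finset.range (2 * k), f j := by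
    intro k
    induction k with
    | zero => simp
    | succ k ih =>
      rw [Finset.sum_range_succ, ih, show 2 * (k + 1) = 2 * k + 1 + 1 by ring,
        Finset.sum_range_succ, Finset.sum_range_succ]
      ring
  rw [h]
  refine Finset.sum_le_sum_of_subset_of_nonneg ?_ (fun j _ _ => hf j)
  exact Finset.range_subset_range.mpr (Nat.mul_div_le n 2)

/-- the exponential sum -/
theorem charsum_le (n : ℕ) (θ : ℝ) :
    ‖∑ b : Fin n → Fin 3, ee (θ * (av n b : ℕ))‖ ≤ 3 ^ n * GG (4 / 15) (n / 2) (24 * θ) := by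
  obtain ⟨K, hK⟩ := av_cast n
  have h1 : ∑ b : Fin n → Fin 3, ee (θ * (av n b : ℕ)) =
      ee (θ * K) * ∏ j : Fin n, ∑ t : Fin 3, ee (-(θ * cr n (j + 1)) * (t : ℕ)) := by
    rw [Finset.prod_univ_sum, Finset.mul_sum, Fintype.piFinset_univ]
    refine Finset.sum_congr rfl fun b _ => ?_
    rw [hK, ← ee_sum, ← ee_add]
    congr 1
    rw [mul_sub, Finset.mul_sum, sub_eq_add_neg, ← Finset.sum_neg_distrib]
    congr 1
    refine Finset.sum_congr rfl fun j _ => ?_
    ring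
  rw [h1, norm_mul, norm_ee, one_mul, norm_prod]
  have h2 : ∀ j : Fin n, ‖∑ t : Fin 3, ee (-(θ * cr n (j + 1)) * (t : ℕ))‖ ≤
      3 * Real.exp (-(8 / 3 * nn (θ * cr n (j + 1)) ^ 2)) := by
    intro j
    have := norm_three (-(θ * cr n (j + 1)))
    rw [nn_neg] at this
    refine le_trans (le_of_eq ?_) this
    congr 1
    rw [Fin.sum_univ_three]
    simp only [Fin.val_zero, Fin.val_one, Fin.val_two]
    push_cast
    rw [mul_zero, ee_zero, mul_one, mul_comm (2 : ℝ)]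
  refine (Finset.prod_le_prod (fun _ _ => norm_nonneg _) fun j _ => h2 j).trans ?_
  rw [Finset.prod_mul_distrib, Finset.prod_const, Finset.card_univ, Fintype.card_fin]
  refine mul_le_mul_of_nonneg_left ?_ (by positivity)
  rw [← Real.exp_sum]
  unfold GG
  rw [Real.exp_le_exp, Finset.sum_neg_distrib, neg_le_neg_iff]
  rw [← Finset.sum_range (fun j => 8 / 3 * nn (θ * cr n (j + 1)) ^ 2)]
  refine le_trans ?_ (sum_pairs_le (fun j => 8 / 3 * nn (θ * cr n (j + 1)) ^ 2)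
    (fun j => by positivity) n)
  unfold QQ
  rw [Finset.mul_sum]
  refine Finset.sum_le_sum fun i hi => ?_
  have hi' := Finset.mem_range.mp hi
  have h3 := pair_bound (θ * cr n (2 * i + 1 + 1)) (3 ^ (2 * i + 1) * θ)
  have h4 : 3 * (θ * cr n (2 * i + 1 + 1)) + 8 * (3 ^ (2 * i + 1) * θ) =
      θ * cr n (2 * i + 1) := by
    rw [cr_step (n := n) (j := 2 * i + 1) (by omega)]
    ring
  have h5 : 8 * (3 ^ (2 * i + 1) * θ) = 9 ^ i * (24 * θ) := by
    rw [pow_succ, pow_mul]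
    norm_num
    ring
  rw [h4, h5] at h3
  linarith

end Pool.Agent.Lib.MP_f75418_nt
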