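import Pool.Agent.Lib.MP_f75418_nt.AP.Char

/-!
# Equidistribution of antipalindromic numbers modulo `d`
-/

open Finset

namespace Pool.Agent.Lib.MP_f75418_nt

/-- the number of `b` with `d ∣ av n b` -/
def Ad (n d : ℕ) : ℕ := ((Finset.univ : Finset (Fin n → Fin 3)).filter (fun b => d ∣ av n b)).card

/-- reduced residues modulo `q` -/
def red (q : ℕ) : Finset ℕ := (Finset.range q).filter (fun c => Nat.Coprime c q)

lemma mem_red {q c : ℕ} : c ∈ red q ↔ c < q ∧ Nat.Coprime c q := by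
  unfold red
  rw [Finset.mem_filter, Finset.mem_range]

lemma ee_eq_one_iff {d : ℕ} (hd : 0 < d) (m : ℕ) : ee ((m : ℝ) / d) = 1 ↔ d ∣ m := by
  have hd' : (d : ℝ) ≠ 0 := by exact_mod_cast hd.ne'
  constructor
  · intro h
    unfold ee at h
    rw [Complex.exp_eq_one_iff] at h
    obtain ⟨k, hk⟩ := h
    have hpi : (2 * Real.pi * Complex.I : ℂ) ≠ 0 := by
      simp [Real.pi_ne_zero]
    have h2 : (((m : ℝ) / d : ℝ) : ℂ) = k := by
      have : (2 * Real.pi * Complex.I : ℂ) * (((m : ℝ) / d : ℝ) : ℂ) = (2 * Real.pi * Complex.I : ℂ) * k := by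
        linear_combination hk
      exact mul_left_cancel₀ hpi this
    have h3 : (m : ℝ) / d = k := by exact_mod_cast h2
    rw [div_eq_iff hd'] at h3
    have h4 : (m : ℤ) = k * d := by exact_mod_cast h3
    exact Int.natCast_dvd_natCast.mp ⟨k, by rw [h4]; ring⟩
  · rintro ⟨k, rfl⟩
    have : ((d * k : ℕ) : ℝ) / d = ((k : ℤ) : ℝ) := by
      push_cast
      field_simp
    rw [this, ee_int]

lemma sum_ee {d : ℕ} (hd : 0 < d) (m : ℕ) :
    ∑ h ∈ Finset.range d, ee ((h : ℝ) / d * m) = if d ∣ m then (d : ℂ) else 0 := by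
  have h1 : ∀ h ∈ Finset.range d, ee ((h : ℝ) / d * m) = ee ((m : ℝ) / d) ^ h := by
    intro h _
    rw [← ee_nat]
    congr 1
    ring
  rw [Finset.sum_congr rfl h1]
  by_cases hdm : d ∣ m
  · rw [if_pos hdm, (ee_eq_one_iff hd m).mpr hdm]
    simp
  · rw [if_neg hdm]
    have h2 : ee ((m : ℝ) / d) ≠ 1 := fun h => hdm ((ee_eq_one_iff hd m).mp h)
    rw [geom_sum_eq h2]
    have h3 : ee ((m : ℝ) / d) ^ d = 1 := by
      rw [← ee_nat]
      have hd' : (d : ℝ) ≠ 0 := by exact_mod_cast hd.ne'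
      have : (d : ℝ) * ((m : ℝ) / d) = ((m : ℤ) : ℝ) := by
        push_cast
        field_simp
      rw [this, ee_int]
    rw [h3, sub_self, zero_div]

theorem Ad_sub_le {n d : ℕ} (hd : 0 < d) :
    |(Ad n d : ℝ) - 3 ^ n / d| ≤
      3 ^ n / d * ∑ h ∈ Finset.Ico 1 d, GG (4 / 15) (n / 2) (24 * ((h : ℝ) / d)) := by
  have hd' : (0 : ℝ) < d := by exact_mod_cast hd
  have h1 : (d : ℂ) * (Ad n d : ℂ) = ∑ h ∈ Finset.range d, ∑ b : Fin n → Fin 3,
      ee ((h : ℝ) / d * (av n b : ℕ)) := by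
    rw [Finset.sum_comm]
    simp_rw [sum_ee hd]
    rw [← Finset.sum_filter, Finset.sum_const, nsmul_eq_mul, mul_comm]
    rfl
  have h2 : ∑ b : Fin n → Fin 3, ee (((0 : ℕ) : ℝ) / d * (av n b : ℕ)) = 3 ^ n := by
    simp [ee_zero]
  have h3 : (d : ℂ) * (Ad n d : ℂ) - 3 ^ n = ∑ h ∈ Finset.Ico 1 d, ∑ b : Fin n → Fin 3,
      ee ((h : ℝ) / d * (av n b : ℕ)) := by
    rw [h1, Finset.range_eq_Ico, Finset.sum_eq_sum_Ico_succ_bot hd, h2]
    ring
  have h4 : (d : ℝ) * |(Ad n d : ℝ) - 3 ^ n / d| = ‖(d : ℂ) * (Ad n d : ℂ) - 3 ^ n‖ := by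
    rw [← abs_of_pos hd', ← abs_mul, abs_of_pos hd']
    have e : (d : ℝ) * ((Ad n d : ℝ) - 3 ^ n / d) = d * Ad n d - 3 ^ n := by
      field_simp
    rw [e, ← Real.norm_eq_abs, ← Complex.norm_real]
    push_cast
    rfl
  have h5 : (d : ℝ) * |(Ad n d : ℝ) - 3 ^ n / d| ≤
      ∑ h ∈ Finset.Ico 1 d, 3 ^ n * GG (4 / 15) (n / 2) (24 * ((h : ℝ) / d)) := by
    rw [h4, h3]
    refine (norm_sum_le _ _).trans (Finset.sum_le_sum fun h _ => ?_)
    exact charsum_le n _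
  rw [← Finset.mul_sum] at h5
  calc |(Ad n d : ℝ) - 3 ^ n / d| = (d * |(Ad n d : ℝ) - 3 ^ n / d|) / d := by field_simp
    _ ≤ (3 ^ n * ∑ h ∈ Finset.Ico 1 d, GG (4 / 15) (n / 2) (24 * ((h : ℝ) / d))) / d := by gcongr
    _ = _ := by ring

/-- grouping fractions by denominators -/
theorem sum_fractions_le {d : ℕ} (hd : 0 < d) (F : ℝ → ℝ) (hF : ∀ x, 0 ≤ F x) :
    ∑ h ∈ Finset.Ico 1 d, F ((h : ℝ) / d) ≤
      ∑ q ∈ d.divisors.erase 1, ∑ c ∈ red q, F ((c : ℝ) / q) := by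
  classical
  rw [Finset.sum_sigma']
  have h1 : ∀ h ∈ Finset.Ico 1 d, F ((h : ℝ) / d) =
      (fun x : Σ _ : ℕ, ℕ => F ((x.2 : ℝ) / x.1)) ⟨d / Nat.gcd h d, h / Nat.gcd h d⟩ := by
    intro h hh
    have hg : 0 < Nat.gcd h d := Nat.gcd_pos_of_pos_right h hd
    have hg' : ((Nat.gcd h d : ℕ) : ℝ) ≠ 0 := by exact_mod_cast hg.ne'
    simp only
    rw [Nat.cast_div (Nat.gcd_dvd_left h d) hg', Nat.cast_div (Nat.gcd_dvd_right h d) hg',
      div_div_div_cancel_right₀ hg']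
  rw [Finset.sum_congr rfl h1]
  rw [← Finset.sum_image (s := Finset.Ico 1 d)
    (g := fun h => (⟨d / Nat.gcd h d, h / Nat.gcd h d⟩ : Σ _ : ℕ, ℕ))
    (f := fun x : Σ _ : ℕ, ℕ => F ((x.2 : ℝ) / x.1))]
  · refine Finset.sum_le_sum_of_subset_of_nonneg ?_ (fun x _ _ => hF _)
    intro x hx
    obtain ⟨h, hh, rfl⟩ := Finset.mem_image.mp hx
    rw [Finset.mem_Ico] at hh
    have hg : 0 < Nat.gcd h d := Nat.gcd_pos_of_pos_right h hd
    rw [Finset.mem_sigma]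
    simp only
    rw [Finset.mem_erase, Nat.mem_divisors, mem_red]
    refine ⟨⟨?_, Nat.div_dvd_of_dvd (Nat.gcd_dvd_right h d), hd.ne'⟩, ?_, ?_⟩
    · intro h2
      have h3 : d = Nat.gcd h d := by
        have := Nat.div_mul_cancel (Nat.gcd_dvd_right h d)
        rw [h2, one_mul] at this
        exact this.symm
      have h4 : Nat.gcd h d ≤ h := Nat.gcd_le_left d (by omega)
      omega
    · exact Nat.div_lt_div_of_lt_of_dvd (Nat.gcd_dvd_right h d) hh.2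
    · exact Nat.coprime_div_gcd_div_gcd hg
  · intro a ha b hb hab
    simp only [Sigma.mk.injEq, heq_eq_eq] at hab
    obtain ⟨e1, e2⟩ := hab
    have hga : 0 < Nat.gcd a d := Nat.gcd_pos_of_pos_right a hd
    have hgb : 0 < Nat.gcd b d := Nat.gcd_pos_of_pos_right b hd
    have d1 := Nat.div_mul_cancel (Nat.gcd_dvd_right a d)
    have d2 := Nat.div_mul_cancel (Nat.gcd_dvd_right b d)
    have d3 := Nat.div_mul_cancel (Nat.gcd_dvd_left a d)
    have d4 := Nat.div_mul_cancel (Nat.gcd_dvd_left b d)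
    have hq : 0 < d / Nat.gcd a d := Nat.div_pos (Nat.gcd_le_right a hd) hga
    have h5 : Nat.gcd a d = Nat.gcd b d := by
      have : d / Nat.gcd a d * Nat.gcd a d = d / Nat.gcd a d * Nat.gcd b d := by
        rw [d1, e1, d2]
      exact Nat.eq_of_mul_eq_mul_left hq this
    rw [← d3, ← d4, e2, h5]

/-- `W m q = ∑_{c mod q, (c,q)=1} GG (4/15) m (24 c / q)` -/
noncomputable def W (m q : ℕ) : ℝ := ∑ c ∈ red q, GG (4 / 15) m (24 * ((c : ℝ) / q))

lemma W_nonneg (m q : ℕ) : 0 ≤ W m q := Finset.sum_nonneg fun _ _ => (GG_pos _ _ _).le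

theorem Ad_sub_le' {n d : ℕ} (hd : 0 < d) :
    |(Ad n d : ℝ) - 3 ^ n / d| ≤ 3 ^ n / d * ∑ q ∈ d.divisors.erase 1, W (n / 2) q := by
  refine (Ad_sub_le hd).trans ?_
  refine mul_le_mul_of_nonneg_left ?_ (by positivity)
  exact sum_fractions_le hd (fun x => GG (4 / 15) (n / 2) (24 * x)) (fun x => (GG_pos _ _ _).le)

end Pool.Agent.Lib.MP_f75418_nt
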