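import Pool.Agent.Lib.MP_7b7e48_nt.GT.FundLemma

/-!
# The fundamental lemma of the sieve for a finite family with a level of distribution
-/

open Finset

namespace Pool.Agent.Lib.MP_f75418_nt

open Pool.Agent.Lib.GT

/-- the zero residue class -/
def Om : ℕ → Finset ℕ := fun _ => {0}

lemma Om_ok {z : ℕ} {P : Finset ℕ} (hP : ∀ r ∈ P, r.Prime ∧ r ≤ z) :
    ∀ r ∈ P, (Om r).card ≤ 2 ∧ (Om r).card < r ∧ ∀ x ∈ Om r, x < r := by
  intro r hr
  have h2 := (hP r hr).1.two_le
  refine ⟨by simp [Om], by simp only [Om, card_singleton]; omega, ?_⟩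
  intro x hx
  rw [Om, mem_singleton] at hx
  omega

lemma mem_Om (n r : ℕ) : n % r ∈ Om r ↔ r ∣ n := by
  rw [Om, mem_singleton, Nat.dvd_iff_mod_eq_zero]

lemma prod_Om (d : Finset ℕ) : ∏ r ∈ d, ((Om r).card : ℝ) / r = 1 / ((∏ r ∈ d, r : ℕ) : ℝ) := by
  simp only [Om, card_singleton, Nat.cast_one]
  rw [Finset.prod_div_distrib]
  push_cast
  simp

variable {ι : Type*}

/-- the error sum -/
noncomputable def errSum (z b : ℕ) (P : Finset ℕ) (S : Finset ι) (f : ι → ℕ) (X : ℝ) : ℝ := by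
  classical
  exact ∑ d ∈ (Finset.Icc 1 (z ^ (12 * b))).filter (fun d => ∀ p, p.Prime → p ∣ d → p ∈ P),
    |((S.filter (fun i => d ∣ f i)).card : ℝ) - X / d|

/-- expansion of a product over levels -/
theorem expandG {z b : ℕ} {P : Finset ℕ} (hP : ∀ r ∈ P, r.Prime ∧ r ≤ z) (hz : 2 ≤ z) (hb : 1 ≤ b)
    (S : Finset ι) (f : ι → ℕ) (X : ℝ)
    (c : Fin (NJ z) → Finset ℕ → ℝ) (hc : ∀ j d, |c j d| ≤ 1) :
    |∑ i ∈ S, ∏ j : Fin (NJ z), ∑ d ∈ fam z b P j,
        (c j d * if ∀ r ∈ d, f i % r ∈ Om r then 1 else 0) -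
      X * ∏ j : Fin (NJ z), ∑ d ∈ fam z b P j, (c j d * ∏ r ∈ d, ((Om r).card : ℝ) / r)| ≤
      errSum z b P S f X := by
  classical
  simp_rw [Finset.prod_univ_sum]
  rw [Finset.sum_comm, Finset.mul_sum, ← Finset.sum_sub_distrib]
  refine (Finset.abs_sum_le_sum_abs _ _).trans ?_
  have h1 : ∀ D ∈ Fintype.piFinset (fun j : Fin (NJ z) => fam z b P j),
      |∑ i ∈ S, ∏ j : Fin (NJ z), (c j (D j) * if ∀ r ∈ D j, f i % r ∈ Om r then 1 else 0) -
        X * ∏ j : Fin (NJ z), (c j (D j) * ∏ r ∈ D j, ((Om r).card : ℝ) / r)| ≤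
      (fun d : ℕ => |((S.filter (fun i => d ∣ f i)).card : ℝ) - X / d|) (∏ r ∈ un D, r) := by
    intro D hD
    have h2 : ∀ n, ∏ j : Fin (NJ z), (c j (D j) * if ∀ r ∈ D j, n % r ∈ Om r then (1 : ℝ) else 0) =
        (∏ j : Fin (NJ z), c j (D j)) * if (∏ r ∈ un D, r) ∣ n then (1 : ℝ) else 0 := by
      intro n
      rw [Finset.prod_mul_distrib]
      congr 1
      by_cases h : (∏ r ∈ un D, r) ∣ n
      · rw [if_pos h]
        refine Finset.prod_eq_one fun j _ => ?_
        rw [if_pos]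
        intro r hr
        rw [mem_Om]
        exact (Finset.dvd_prod_of_mem (fun r => r) (mem_biUnion.mpr ⟨j, mem_univ _, hr⟩)).trans h
      · rw [if_neg h]
        have h3 : ∃ r ∈ un D, ¬ r ∣ n := by
          by_contra hcon
          push Not at hcon
          exact h (Finset.prod_primes_dvd n
            (fun r hr => ((hP r (un_sub D hD hr)).1).prime) hcon)
        obtain ⟨r, hr, hr2⟩ := h3
        obtain ⟨j, -, hj⟩ := mem_biUnion.mp hr
        refine Finset.prod_eq_zero (mem_univ j) ?_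
        rw [if_neg]
        intro h3
        exact hr2 ((mem_Om n r).mp (h3 r hj))
    simp_rw [h2]
    rw [← Finset.mul_sum, Finset.prod_mul_distrib, ← prod_un D hD (fun r => ((Om r).card : ℝ) / r),
      prod_Om]
    have h3 : ∑ i ∈ S, (if (∏ r ∈ un D, r) ∣ f i then (1 : ℝ) else 0) =
        ((S.filter (fun i => (∏ r ∈ un D, r) ∣ f i)).card : ℝ) := by
      rw [Finset.card_filter]
      push_cast
      rfl
    rw [h3]
    have h5 : |∏ j : Fin (NJ z), c j (D j)| ≤ 1 := by
      rw [Finset.abs_prod]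
      exact Finset.prod_le_one (fun _ _ => abs_nonneg _) (fun j _ => hc j _)
    calc |(∏ j : Fin (NJ z), c j (D j)) * ((S.filter (fun i => (∏ r ∈ un D, r) ∣ f i)).card : ℝ) -
          X * ((∏ j : Fin (NJ z), c j (D j)) * (1 / ((∏ r ∈ un D, r : ℕ) : ℝ)))|
        = |∏ j : Fin (NJ z), c j (D j)| *
          |((S.filter (fun i => (∏ r ∈ un D, r) ∣ f i)).card : ℝ) - X / ((∏ r ∈ un D, r : ℕ) : ℝ)| := by
          rw [← abs_mul]; congr 1; ring
      _ ≤ 1 * |((S.filter (fun i => (∏ r ∈ un D, r) ∣ f i)).card : ℝ) -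
          X / ((∏ r ∈ un D, r : ℕ) : ℝ)| := mul_le_mul_of_nonneg_right h5 (abs_nonneg _)
      _ = _ := one_mul _
  refine (Finset.sum_le_sum h1).trans ?_
  have hun : ∀ E : Fin (NJ z) → Finset ℕ, E ∈ Fintype.piFinset (fun j : Fin (NJ z) => fam z b P j) →
      (∏ r ∈ un E, r).primeFactors = un E := fun E hE =>
    Nat.primeFactors_prod fun r hr => (hP r (un_sub E hE hr)).1
  rw [← Finset.sum_image (s := Fintype.piFinset (fun j : Fin (NJ z) => fam z b P j))
    (g := fun D : Fin (NJ z) → Finset ℕ => ∏ r ∈ un D, r)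
    (f := fun d : ℕ => |((S.filter (fun i => d ∣ f i)).card : ℝ) - X / d|)]
  · unfold errSum
    refine Finset.sum_le_sum_of_subset_of_nonneg ?_ (fun _ _ _ => abs_nonneg _)
    intro d hd
    obtain ⟨D, hD, rfl⟩ := Finset.mem_image.mp hd
    rw [mem_filter, mem_Icc]
    refine ⟨⟨Finset.prod_pos fun r hr => (hP r (un_sub D hD hr)).1.pos, ?_⟩, ?_⟩
    · have := prod_un_le hP hz hb D hD
      exact_mod_cast this
    · intro p hp hpd
      have h2 : p ∈ (∏ r ∈ un D, r).primeFactors := by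
        rw [Nat.mem_primeFactors]
        exact ⟨hp, hpd, (Finset.prod_pos fun r hr => (hP r (un_sub D hD hr)).1.pos).ne'⟩
      rw [hun D hD] at h2
      exact un_sub D hD h2
  · intro D hD D' hD' h
    rw [mem_coe] at hD hD'
    have h2 : un D = un D' := by
      have h' : ∏ r ∈ un D, r = ∏ r ∈ un D', r := h
      rw [← hun D hD, ← hun D' hD', h']
    funext j
    have key : ∀ E : Fin (NJ z) → Finset ℕ, E ∈ Fintype.piFinset (fun j : Fin (NJ z) => fam z b P j) →
        E j = (un E).filter (fun r => lev z r = (j : ℕ)) := by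
      intro E hE
      ext r
      rw [mem_filter, un, mem_biUnion]
      constructor
      · intro hr
        exact ⟨⟨j, mem_univ _, hr⟩, (mem_filter.mp (mem_fam_sub (Fintype.mem_piFinset.mp hE j) hr)).2⟩
      · rintro ⟨⟨i, -, hi⟩, hr⟩
        have h3 := (mem_filter.mp (mem_fam_sub (Fintype.mem_piFinset.mp hE i) hi)).2
        have h4 : i = j := Fin.ext (h3.symm.trans hr)
        rwa [h4] at hi
    rw [key D hD, key D' hD', h2]

section main
variable {z b : ℕ} {P : Finset ℕ} (hP : ∀ r ∈ P, r.Prime ∧ r ≤ z) (hz : 2 ≤ z) (hb : 1 ≤ b)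
  (S : Finset ι) (f : ι → ℕ) {X : ℝ} (hX : 0 ≤ X)

include hP hz hb hX

theorem upperG :
    ∑ i ∈ S, ∏ j : Fin (NJ z), Uf z b P Om j (f i) ≤
      (1 + K₀ * (1 / 2) ^ b) * (X * ∏ r ∈ P, (1 - ((Om r).card : ℝ) / r)) + errSum z b P S f X ∧
    X * ∏ r ∈ P, (1 - ((Om r).card : ℝ) / r) - errSum z b P S f X ≤
      ∑ i ∈ S, ∏ j : Fin (NJ z), Uf z b P Om j (f i) := by
  have hΩ := Om_ok hP
  have hex := expandG hP hz hb S f X (fun j d => cm b j d) (fun j d => abs_cm_le b j d)
  have h1 : ∑ i ∈ S, ∏ j : Fin (NJ z), Uf z b P Om j (f i) =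
      ∑ i ∈ S, ∏ j : Fin (NJ z), ∑ d ∈ fam z b P j,
        (cm b j d * if ∀ r ∈ d, f i % r ∈ Om r then 1 else 0) := rfl
  rw [← h1] at hex
  have h2 : ∏ j : Fin (NJ z), ∑ d ∈ fam z b P j, (cm b j d * ∏ r ∈ d, ((Om r).card : ℝ) / r) =
      ∏ j : Fin (NJ z), Tj z b P Om j := rfl
  rw [h2] at hex
  rw [prod_PJ hP (fun r => 1 - ((Om r).card : ℝ) / r)]
  change _ ≤ (1 + K₀ * (1 / 2) ^ b) * (X * ∏ j : Fin (NJ z), Vj z P Om j) + _ ∧
    X * ∏ j : Fin (NJ z), Vj z P Om j - _ ≤ _
  have hlev := fun j : Fin (NJ z) => level_all (b := b) hP hz Om hΩ j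
  have h3 : ∏ j : Fin (NJ z), Tj z b P Om j ≤
      (1 + K₀ * (1 / 2) ^ b) * ∏ j : Fin (NJ z), Vj z P Om j := by
    calc ∏ j : Fin (NJ z), Tj z b P Om j ≤ ∏ j : Fin (NJ z), (Vj z P Om j * (1 + ηj b j)) :=
          Finset.prod_le_prod (fun j _ => (hlev j).1.le.trans (hlev j).2.1) fun j _ => (hlev j).2.2.1
      _ = (∏ j : Fin (NJ z), Vj z P Om j) * ∏ j : Fin (NJ z), (1 + ηj b j) := Finset.prod_mul_distrib
      _ ≤ (∏ j : Fin (NJ z), Vj z P Om j) * (1 + K₀ * (1 / 2) ^ b) := by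
          refine mul_le_mul_of_nonneg_left ?_ (Finset.prod_nonneg fun j _ => (hlev j).1.le)
          have h4 : ∏ j : Fin (NJ z), (1 + ηj b j) ≤ Real.exp (κ₀ * (1 / 2) ^ b) := by
            calc ∏ j : Fin (NJ z), (1 + ηj b j) ≤ ∏ j : Fin (NJ z), Real.exp (ηj b j) := by
                  refine Finset.prod_le_prod (fun j _ => by have := ηj_nonneg b j; linarith)
                    fun j _ => ?_
                  have := Real.add_one_le_exp (ηj b j)
                  linarith
              _ = Real.exp (∑ j : Fin (NJ z), ηj b j) := (Real.exp_sum _ _).symm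
              _ ≤ _ := Real.exp_le_exp.mpr (sum_ηj_le b (NJ z))
          refine h4.trans ?_
          set x := κ₀ * (1 / 2 : ℝ) ^ b with hx
          have hx0 : 0 ≤ x := by have := κ₀_pos; positivity
          have hxk : x ≤ κ₀ := by
            have : (1 / 2 : ℝ) ^ b ≤ 1 := pow_le_one₀ (by norm_num) (by norm_num)
            have h5 := κ₀_pos
            nlinarith
          have h6 : Real.exp x ≤ 1 + x * Real.exp x := by
            have h7 := Real.add_one_le_exp (-x)
            have h8 : Real.exp x * (1 - x) ≤ Real.exp x * Real.exp (-x) :=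
              mul_le_mul_of_nonneg_left (by linarith) (Real.exp_pos _).le
            rw [← Real.exp_add, add_neg_cancel, Real.exp_zero] at h8
            linarith
          have h9 : x * Real.exp x ≤ x * Real.exp κ₀ :=
            mul_le_mul_of_nonneg_left (Real.exp_le_exp.mpr hxk) hx0
          have h10 : x * Real.exp κ₀ = K₀ * (1 / 2) ^ b := by
            rw [hx]; unfold K₀; ring
          linarith
      _ = _ := mul_comm _ _
  have h5 : ∏ j : Fin (NJ z), Vj z P Om j ≤ ∏ j : Fin (NJ z), Tj z b P Om j :=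
    Finset.prod_le_prod (fun j _ => (hlev j).1.le) fun j _ => (hlev j).2.1
  have h6 := mul_le_mul_of_nonneg_left h3 hX
  have h7 := mul_le_mul_of_nonneg_left h5 hX
  rw [abs_le] at hex
  constructor
  · nlinarith [hex.2]
  · linarith [hex.1]

theorem errG (l : Fin (NJ z)) :
    ∑ i ∈ S, Ef z b P Om l (f i) * ∏ j ∈ Finset.univ.erase l, Uf z b P Om j (f i) ≤
      ηj b l * Real.exp κ₀ * (X * ∏ r ∈ P, (1 - ((Om r).card : ℝ) / r)) + errSum z b P S f X := by
  classical
  have hΩ := Om_ok hP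
  have hex := expandG hP hz hb S f X
    (fun j d => if j = l then ct b j d else cm b j d) (fun j d => by
      by_cases h : j = l
      · rw [if_pos h]; exact abs_ct_le b j d
      · rw [if_neg h]; exact abs_cm_le b j d)
  have h1 : ∀ n, ∏ j : Fin (NJ z), ∑ d ∈ fam z b P j,
      ((if j = l then ct b j d else cm b j d) * if ∀ r ∈ d, n % r ∈ Om r then (1 : ℝ) else 0) =
      Ef z b P Om l n * ∏ j ∈ Finset.univ.erase l, Uf z b P Om j n := by
    intro n
    rw [← Finset.mul_prod_erase Finset.univ _ (Finset.mem_univ l)]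
    congr 1
    · simp only [if_true]
      rfl
    · refine Finset.prod_congr rfl fun j hj => ?_
      have : j ≠ l := Finset.ne_of_mem_erase hj
      simp only [if_neg this]
      rfl
  have h2 : ∏ j : Fin (NJ z), ∑ d ∈ fam z b P j,
      ((if j = l then ct b j d else cm b j d) * ∏ r ∈ d, ((Om r).card : ℝ) / r) =
      ej z b P Om l * ∏ j ∈ Finset.univ.erase l, Tj z b P Om j := by
    rw [← Finset.mul_prod_erase Finset.univ _ (Finset.mem_univ l)]
    congr 1
    · simp only [if_true]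
      rfl
    · refine Finset.prod_congr rfl fun j hj => ?_
      have : j ≠ l := Finset.ne_of_mem_erase hj
      simp only [if_neg this]
      rfl
  simp_rw [h1] at hex
  rw [h2] at hex
  rw [prod_PJ hP (fun r => 1 - ((Om r).card : ℝ) / r)]
  change _ ≤ ηj b l * Real.exp κ₀ * (X * ∏ j : Fin (NJ z), Vj z P Om j) + _
  have hlev := fun j : Fin (NJ z) => level_all (b := b) hP hz Om hΩ j
  have h3 : ej z b P Om l * ∏ j ∈ Finset.univ.erase l, Tj z b P Om j ≤
      ηj b l * Real.exp κ₀ * ∏ j : Fin (NJ z), Vj z P Om j := by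
    calc ej z b P Om l * ∏ j ∈ Finset.univ.erase l, Tj z b P Om j
        ≤ (Vj z P Om l * ηj b l) * ∏ j ∈ Finset.univ.erase l, (Vj z P Om j * (1 + ηj b j)) := by
          refine mul_le_mul (hlev l).2.2.2.1 ?_ ?_ ?_
          · exact Finset.prod_le_prod (fun j _ => (hlev j).1.le.trans (hlev j).2.1)
              fun j _ => (hlev j).2.2.1
          · exact Finset.prod_nonneg fun j _ => (hlev j).1.le.trans (hlev j).2.1
          · exact mul_nonneg (hlev l).1.le (ηj_nonneg b l)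
      _ = (Vj z P Om l * ηj b l) * ((∏ j ∈ Finset.univ.erase l, Vj z P Om j) *
            ∏ j ∈ Finset.univ.erase l, (1 + ηj b j)) := by rw [Finset.prod_mul_distrib]
      _ ≤ (Vj z P Om l * ηj b l) * ((∏ j ∈ Finset.univ.erase l, Vj z P Om j) * Real.exp κ₀) := by
          refine mul_le_mul_of_nonneg_left ?_ (mul_nonneg (hlev l).1.le (ηj_nonneg b l))
          refine mul_le_mul_of_nonneg_left ?_ (Finset.prod_nonneg fun j _ => (hlev j).1.le)
          calc ∏ j ∈ Finset.univ.erase l, (1 + ηj b j) ≤ ∏ j ∈ Finset.univ.erase l, Real.exp (ηj b j) := by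
                refine Finset.prod_le_prod (fun j _ => by have := ηj_nonneg b j; linarith)
                  fun j _ => ?_
                have := Real.add_one_le_exp (ηj b j)
                linarith
            _ = Real.exp (∑ j ∈ Finset.univ.erase l, ηj b j) := (Real.exp_sum _ _).symm
            _ ≤ Real.exp κ₀ := by
                refine Real.exp_le_exp.mpr ?_
                refine (Finset.sum_le_sum_of_subset_of_nonneg (Finset.erase_subset l Finset.univ)
                  (fun j _ _ => ηj_nonneg b j)).trans ?_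
                refine (sum_ηj_le b (NJ z)).trans ?_
                have : (1 / 2 : ℝ) ^ b ≤ 1 := pow_le_one₀ (by norm_num) (by norm_num)
                have h5 := κ₀_pos
                nlinarith
      _ = ηj b l * Real.exp κ₀ * (Vj z P Om l * ∏ j ∈ Finset.univ.erase l, Vj z P Om j) := by ring
      _ = _ := by rw [Finset.mul_prod_erase Finset.univ (fun j : Fin (NJ z) => Vj z P Om j) (Finset.mem_univ l)]
  have h6 := mul_le_mul_of_nonneg_left h3 hX
  rw [abs_le] at hex
  nlinarith [hex.2]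

theorem diffG :
    ∑ i ∈ S, (∏ j : Fin (NJ z), Uf z b P Om j (f i) - if ∀ r ∈ P, f i % r ∉ Om r then 1 else 0) ≤
      K₀ * (1 / 2) ^ b * (X * ∏ r ∈ P, (1 - ((Om r).card : ℝ) / r)) + NJ z * errSum z b P S f X := by
  classical
  have hΩ := Om_ok hP
  have h1 : ∀ i ∈ S, (∏ j : Fin (NJ z), Uf z b P Om j (f i) -
      if ∀ r ∈ P, f i % r ∉ Om r then 1 else 0) ≤
      ∑ l : Fin (NJ z), Ef z b P Om l (f i) * ∏ j ∈ Finset.univ.erase l, Uf z b P Om j (f i) := by
    intro i _
    rw [← prod_Xf hP Om (f i)]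
    refine (prod_sub_le Finset.univ (fun j : Fin (NJ z) => Xf z P Om j (f i))
      (fun j : Fin (NJ z) => Uf z b P Om j (f i)) (fun j _ => Xf_nonneg z P Om j (f i))
      (fun j _ => Xf_le_Uf z b P Om j (f i))).trans ?_
    refine Finset.sum_le_sum fun l _ => ?_
    exact mul_le_mul_of_nonneg_right (Uf_sub_le z b P Om l (f i))
      (Finset.prod_nonneg fun j _ => Uf_nonneg z b P Om j (f i))
  refine (Finset.sum_le_sum h1).trans ?_
  rw [Finset.sum_comm]
  refine (Finset.sum_le_sum fun l _ => errG hP hz hb S f hX l).trans ?_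
  rw [Finset.sum_add_distrib, ← Finset.sum_mul, ← Finset.sum_mul, Finset.sum_const, Finset.card_univ,
    Fintype.card_fin, nsmul_eq_mul]
  have hV0 : 0 ≤ ∏ r ∈ P, (1 - ((Om r).card : ℝ) / r) := by
    refine Finset.prod_nonneg fun r hr => ?_
    have hr0 : (0 : ℝ) < r := by exact_mod_cast (hP r hr).1.pos
    rw [sub_nonneg, div_le_one hr0]
    exact_mod_cast (hΩ r hr).2.1.le
  have h2 : (∑ l : Fin (NJ z), ηj b l) * Real.exp κ₀ * (X * ∏ r ∈ P, (1 - ((Om r).card : ℝ) / r)) ≤
      K₀ * (1 / 2) ^ b * (X * ∏ r ∈ P, (1 - ((Om r).card : ℝ) / r)) := by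
    refine mul_le_mul_of_nonneg_right ?_ (mul_nonneg hX hV0)
    have := mul_le_mul_of_nonneg_right (sum_ηj_le b (NJ z)) (Real.exp_pos κ₀).le
    unfold K₀
    linarith
  linarith

end main

/-- **Fundamental lemma** for a finite family. -/
theorem fund_general {b z : ℕ} (hb : 1 ≤ b) (hz : 2 ≤ z) {P : Finset ℕ}
    (hP : ∀ r ∈ P, r.Prime ∧ r ≤ z) (S : Finset ι) (f : ι → ℕ) {X : ℝ} (hX : 0 ≤ X) :
    |((S.filter (fun i => ∀ r ∈ P, ¬ r ∣ f i)).card : ℝ) - X * ∏ r ∈ P, (1 - 1 / (r : ℝ))| ≤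
      K₀ * (1 / 2) ^ b * (X * ∏ r ∈ P, (1 - 1 / (r : ℝ))) + (NJ z + 1) * errSum z b P S f X := by
  classical
  obtain ⟨hu, hl⟩ := upperG hP hz hb S f hX
  have hd := diffG hP hz hb S f hX
  rw [Finset.sum_sub_distrib] at hd
  have hcard : ∀ r : ℕ, ((Om r).card : ℝ) = 1 := fun r => by simp [Om]
  simp only [hcard] at hu hl hd
  have hcount : ((S.filter (fun i => ∀ r ∈ P, ¬ r ∣ f i)).card : ℝ) =
      ∑ i ∈ S, (if ∀ r ∈ P, f i % r ∉ Om r then (1 : ℝ) else 0) := by
    rw [Finset.card_filter]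
    push_cast
    refine Finset.sum_congr rfl fun i _ => ?_
    simp only [mem_Om]
  have hsumle : ∑ i ∈ S, (if ∀ r ∈ P, f i % r ∉ Om r then (1 : ℝ) else 0) ≤
      ∑ i ∈ S, ∏ j : Fin (NJ z), Uf z b P Om j (f i) := by
    refine Finset.sum_le_sum fun i _ => ?_
    rw [← prod_Xf hP Om (f i)]
    exact Finset.prod_le_prod (fun j _ => Xf_nonneg z P Om j (f i))
      (fun j _ => Xf_le_Uf z b P Om j (f i))
  have hE : 0 ≤ errSum z b P S f X := Finset.sum_nonneg fun _ _ => abs_nonneg _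
  have hE2 : 0 ≤ (NJ z : ℝ) * errSum z b P S f X := mul_nonneg (Nat.cast_nonneg _) hE
  rw [hcount, abs_le]
  constructor
  · linarith
  · linarith

end Pool.Agent.Lib.MP_f75418_nt
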