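import Pool.Agent.Lib.MP_f75418_nt.AP.Sifted

/-!
# Almost primes and primes among the antipalindromic numbers
-/

open Finset

namespace Pool.Agent.Lib.MP_f75418_nt

open Pool.Agent.Lib.GT (pr V NJ V_inv_le V_pos K₀)

/-! ### Elementary facts on `av` -/

lemma not_two_dvd_av (n : ℕ) (b : Fin n → Fin 3) : ¬ 2 ∣ av n b := by
  intro h
  have h1 : ((av n b : ℕ) : ZMod 2) = 0 := (ZMod.natCast_eq_zero_iff _ _).mpr h
  unfold av at h1
  rw [val_cast] at h1
  have h3 : (3 : ZMod 2) = 1 := by decide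
  have h2 : (2 : ZMod 2) = 0 := by decide
  unfold cf at h1
  simp only [h3, one_pow, sub_self, mul_zero, h2, zero_mul, add_zero, Finset.sum_const_zero,
    zero_add] at h1
  exact absurd h1 (by decide)

lemma val_mod_three (n : ℕ) (a : Fin (n + 1) → Fin 3) : ((val (n + 1) a : ℕ) : ZMod 3) = (a 0 : ℕ) := by
  rw [val_cast, Fin.sum_univ_succ]
  have h3 : (3 : ZMod 3) = 0 := by decide
  unfold cf
  simp only [Fin.val_zero, Fin.val_succ, h3]
  have e1 : (0 : ZMod 3) ^ (2 * (n + 1) - 0) = 0 := zero_pow (by omega)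
  have e2 : ∀ i : Fin n, (0 : ZMod 3) ^ (2 * (n + 1) - ((i : ℕ) + 1)) = 0 := fun i =>
    zero_pow (by have := i.2; omega)
  have e3 : ∀ i : Fin n, (0 : ZMod 3) ^ ((i : ℕ) + 1) = 0 := fun i => zero_pow (by omega)
  simp only [e1, e2, e3, pow_zero, sub_zero, mul_one, mul_zero, add_zero, sub_self,
    Finset.sum_const_zero, zero_pow (Nat.succ_ne_zero n)]

lemma not_three_dvd_av (n : ℕ) (b : Fin n → Fin 3) : ¬ 3 ∣ av n b := by
  intro h
  have h1 : ((av n b : ℕ) : ZMod 3) = 0 := (ZMod.natCast_eq_zero_iff _ _).mpr h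
  unfold av at h1
  rw [val_mod_three, Fin.cons_zero] at h1
  exact absurd h1 (by decide)

lemma good_cons (n : ℕ) (b : Fin n → Fin 3) : ∀ h0 : 0 < n + 1,
    (Fin.cons 1 b : Fin (n + 1) → Fin 3) ⟨0, h0⟩ ≠ 2 := by
  intro h0
  have : (⟨0, h0⟩ : Fin (n + 1)) = 0 := rfl
  rw [this, Fin.cons_zero]
  decide

lemma av_injective (n : ℕ) : Function.Injective (av n) := by
  intro b c hbc
  have h1 := val_injOn (n + 1) (good_cons n b) (good_cons n c) hbc
  exact Fin.cons_right_injective _ h1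

lemma av_mem (n : ℕ) (b : Fin n → Fin 3) : av n b ∈ antipals (n + 1) :=
  mem_antipals.mpr ⟨⟨val_ge _ _ (good_cons n b), val_lt _ _⟩, val_isAntipal _ _ (good_cons n b)⟩

lemma val_lt_of_two (n : ℕ) (a : Fin (n + 1) → Fin 3) (h : a 0 = 2) :
    val (n + 1) a < 3 ^ (2 * (n + 1)) := by
  rw [val_eq_ofDigits, ofDigits_ofFn, Fin.sum_univ_castSucc]
  simp only [Fin.val_castSucc, Fin.val_last]
  have e : dig (n + 1) a (2 * (n + 1)) = 0 := by
    unfold dig
    rw [dif_neg (by omega), if_neg (by omega), dif_pos (by omega)]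
    have h4 : (⟨2 * (n + 1) - 2 * (n + 1), by omega⟩ : Fin (n + 1)) = 0 := by
      ext; simp
    rw [h4, h]
    rfl
  rw [e, zero_mul, add_zero, ← ofDigits_ofFn 3 (2 * (n + 1)) (fun i => dig (n + 1) a i)]
  have := Nat.ofDigits_lt_base_pow_length (b := 3)
    (l := List.ofFn (fun i : Fin (2 * (n + 1)) => dig (n + 1) a i)) (by norm_num) (by
      intro x hx
      rw [List.mem_ofFn] at hx
      obtain ⟨i, rfl⟩ := hx
      exact dig_lt (n + 1) a i)
  rwa [List.length_ofFn] at this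

/-- antipalindromic numbers not divisible by `3` are values of `av` -/
lemma exists_av {n m : ℕ} (hm : m ∈ antipals (n + 1)) (h3 : ¬ 3 ∣ m) : ∃ b, av n b = m := by
  have hm2 := mem_antipals.mp hm
  obtain ⟨a, ha⟩ := exists_val hm2.1.1 hm2.1.2 hm2.2
  have h0 : a 0 ≠ 2 := by
    intro h
    have := val_lt_of_two n a h
    rw [ha] at this
    exact absurd hm2.1.1 (by omega)
  have h1 : a 0 ≠ 0 := by
    intro h
    apply h3
    rw [← ZMod.natCast_eq_zero_iff, ← ha, val_mod_three, h]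
    rfl
  have h2 : a 0 = 1 := by
    have h4 := (a 0).2
    have h5 : (a 0 : ℕ) ≠ 0 := fun h => h1 (Fin.ext h)
    have h6 : (a 0 : ℕ) ≠ 2 := fun h => h0 (Fin.ext h)
    apply Fin.ext
    change (a 0 : ℕ) = 1
    omega
  refine ⟨Fin.tail a, ?_⟩
  unfold av
  rw [← h2, Fin.cons_self_tail, ha]

lemma card_antipals_le (n : ℕ) : (antipals n).card ≤ 3 ^ n := by
  classical
  have h1 : antipals n ⊆ (Finset.univ : Finset (Fin n → Fin 3)).image (val n) := by
    intro m hm
    have hm2 := mem_antipals.mp hm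
    obtain ⟨a, ha⟩ := exists_val hm2.1.1 hm2.1.2 hm2.2
    exact Finset.mem_image.mpr ⟨a, Finset.mem_univ _, ha⟩
  refine (Finset.card_le_card h1).trans (Finset.card_image_le.trans ?_)
  rw [Finset.card_univ, Fintype.card_fun]
  simp

/-! ### Analytic estimates -/

lemma decay : ∃ K : ℝ, 0 < K ∧ ∀ n : ℕ, 1 ≤ n →
    ((n : ℝ) + 2) * Real.exp (-(Real.sqrt n / 200)) ≤ K / (n : ℝ) ^ 2 := by
  refine ⟨3 * 200 ^ 6 * 720, by positivity, fun n hn => ?_⟩
  have hn1 : (1 : ℝ) ≤ n := by exact_mod_cast hn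
  have hs := Real.sq_sqrt (show (0 : ℝ) ≤ n from Nat.cast_nonneg _)
  have hs0 := Real.sqrt_nonneg (n : ℝ)
  set x := Real.sqrt n
  have h1 := Real.pow_div_factorial_le_exp (x / 200) (by positivity) 6
  have h2 : (x / 200) ^ 6 / ((6 : ℕ).factorial : ℝ) = (n : ℝ) ^ 3 / (200 ^ 6 * 720) := by
    have e : ((6 : ℕ).factorial : ℝ) = 720 := by norm_num [Nat.factorial]
    rw [e, ← hs]
    ring
  rw [h2] at h1
  rw [Real.exp_neg, ← div_eq_mul_inv, div_le_div_iff₀ (Real.exp_pos _) (by positivity)]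
  have h3 : (n : ℝ) ^ 3 ≤ 200 ^ 6 * 720 * Real.exp (x / 200) := by
    rw [div_le_iff₀ (by positivity)] at h1
    linarith
  have h4 : ((n : ℝ) + 2) * (n : ℝ) ^ 2 ≤ 3 * (n : ℝ) ^ 3 := by nlinarith [sq_nonneg (n : ℝ)]
  calc ((n : ℝ) + 2) * (n : ℝ) ^ 2 ≤ 3 * (n : ℝ) ^ 3 := h4
    _ ≤ 3 * (200 ^ 6 * 720 * Real.exp (x / 200)) := by linarith
    _ = _ := by ring

/-- the choice of `z` -/
lemma choice {b : ℕ} (hb : 1 ≤ b) (n : ℕ) (hn : 480000 * b ≤ n) : ∃ z : ℕ, 3 ≤ z ∧
    ((z ^ (12 * b) : ℕ) : ℝ) ≤ Real.exp (n / 20000) ∧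
    Real.exp (n / (240000 * b)) < z + 1 ∧ (n : ℝ) / (480000 * b) ≤ Real.log z ∧
    Real.log z ≤ n / (240000 * b) ∧ ((NJ z : ℕ) : ℝ) + 1 ≤ n + 2 ∧ z < 3 ^ n := by
  have hb' : (1 : ℝ) ≤ b := by exact_mod_cast hb
  have hn' : (480000 : ℝ) * b ≤ n := by exact_mod_cast hn
  set t : ℝ := n / (240000 * b) with ht
  have ht2 : 2 ≤ t := by
    rw [ht, le_div_iff₀ (by positivity)]
    linarith
  have hn0 : (0 : ℝ) ≤ n := Nat.cast_nonneg n
  have htn : t ≤ n / 240000 := by
    rw [ht]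
    apply div_le_div_of_nonneg_left hn0 (by norm_num)
    linarith
  have he : (4 : ℝ) ≤ Real.exp t := by
    calc (4 : ℝ) ≤ 1 + 2 + 2 ^ 2 / 2 := by norm_num
      _ ≤ Real.exp 2 := Real.quadratic_le_exp_of_nonneg (by norm_num)
      _ ≤ Real.exp t := Real.exp_le_exp.mpr ht2
  set z := ⌊Real.exp t⌋₊ with hz
  have hz1 : (z : ℝ) ≤ Real.exp t := Nat.floor_le (Real.exp_pos _).le
  have hz2 : Real.exp t < z + 1 := Nat.lt_floor_add_one _
  have hz3 : 4 ≤ z := by
    rw [hz]
    exact Nat.le_floor (by exact_mod_cast he)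
  have hz4 : (4 : ℝ) ≤ z := by exact_mod_cast hz3
  have hlog1 : Real.log z ≤ t := by
    rw [Real.log_le_iff_le_exp (by linarith)]
    exact hz1
  have hlog2 : t / 2 ≤ Real.log z := by
    rw [Real.le_log_iff_exp_le (by linarith)]
    -- exp (t/2) ≤ exp t - 1 < z
    have h1 : Real.exp t = Real.exp (t / 2) * Real.exp (t / 2) := by
      rw [← Real.exp_add]; congr 1; ring
    have h2 : (2 : ℝ) ≤ Real.exp (t / 2) := by
      have := Real.add_one_le_exp (t / 2)
      linarith
    nlinarith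
  refine ⟨z, by omega, ?_, hz2, ?_, hlog1, ?_, ?_⟩
  · push_cast
    calc (z : ℝ) ^ (12 * b) ≤ (Real.exp t) ^ (12 * b) := pow_le_pow_left₀ (by linarith) hz1 _
      _ = Real.exp (n / 20000) := by
        rw [← Real.exp_nat_mul]
        congr 1
        rw [ht]
        push_cast
        field_simp
        ring
  · refine le_trans (le_of_eq ?_) hlog2
    rw [ht]
    field_simp
    ring
  · have h1 : Nat.log 2 (Nat.log 2 z) ≤ Nat.log 2 z := Nat.log_le_self _ _
    have h2 : ((Nat.log 2 z : ℕ) : ℝ) ≤ n := by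
      have h3 : 2 ^ Nat.log 2 z ≤ z := Nat.pow_log_le_self 2 (by omega)
      have h4 : ((2 : ℝ)) ^ Nat.log 2 z ≤ z := by exact_mod_cast h3
      have h5 := Real.log_le_log (by positivity) h4
      rw [Real.log_pow] at h5
      have h6 := Real.log_two_gt_d9
      have h7 : ((Nat.log 2 z : ℕ) : ℝ) * (1 / 2) ≤ ((Nat.log 2 z : ℕ) : ℝ) * Real.log 2 :=
        mul_le_mul_of_nonneg_left (by linarith) (Nat.cast_nonneg _)
      linarith
    have h3 : ((NJ z : ℕ) : ℝ) ≤ ((Nat.log 2 z : ℕ) : ℝ) + 1 := by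
      have : NJ z ≤ Nat.log 2 z + 1 := by
        unfold Pool.Agent.Lib.GT.NJ
        omega
      exact_mod_cast this
    linarith
  · have h1 : Real.exp t < 3 ^ n := by
      have hn1 : 1 ≤ n := by omega
      calc Real.exp t ≤ Real.exp n := Real.exp_le_exp.mpr (by linarith)
        _ = Real.exp 1 ^ n := by rw [← Real.exp_nat_mul, mul_one]
        _ < 3 ^ n := by
          apply pow_lt_pow_left₀ _ (Real.exp_pos _).le (by omega)
          have := Real.exp_one_lt_d9
          linarith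
    have h2 : (z : ℝ) < 3 ^ n := lt_of_le_of_lt hz1 h1
    exact_mod_cast h2

open scoped Classical in
/-- numbers all of whose prime factors are large: lower bound, and primes: upper bound -/
theorem counts : ∃ b : ℕ, 1 ≤ b ∧ ∃ c C : ℝ, 0 < c ∧ 0 < C ∧ ∃ n₀ : ℕ, ∀ n : ℕ, n₀ ≤ n →
    c * 3 ^ n / n ≤ (((Finset.univ : Finset (Fin n → Fin 3)).filter (fun a =>
      ∀ p, p.Prime → p ∣ av n a → Real.exp (n / (240000 * b)) ≤ p)).card : ℝ) ∧
    (((antipals (n + 1)).filter Nat.Prime).card : ℝ) ≤ C * 3 ^ n / n := by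
  classical
  obtain ⟨b, hb, C, hC, hsif⟩ := sif_bounds
  obtain ⟨C₁, hC₁, hV⟩ := V_inv_le
  obtain ⟨K, hK, hdec⟩ := decay
  have hb' : (1 : ℝ) ≤ b := by exact_mod_cast hb
  refine ⟨b, hb, 60000 * b / C₁, 12 * 240000 * b + C * K, by positivity, by positivity,
    480000 * b + ⌈C * K * C₁⌉₊ + 1, ?_⟩
  intro n hn
  have hn1 : 1 ≤ n := by omega
  have hnr : (1 : ℝ) ≤ n := by exact_mod_cast hn1
  have hn0 : (0 : ℝ) < n := by linarith
  obtain ⟨z, hz3, hz12, hzexp, hlog1, hlog2, hNJ, hz3n⟩ := choice hb n (by omega)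
  obtain ⟨hlo, hup⟩ := hsif n z (by omega) hz12
  have hd := hdec n hn1
  have hlogpos : 0 < Real.log z := Real.log_pos (by exact_mod_cast (by omega : 1 < z))
  have herr : C * (NJ z + 1) * 3 ^ n * Real.exp (-(Real.sqrt n / 200)) ≤ C * K * 3 ^ n / n ^ 2 := by
    calc C * (NJ z + 1) * 3 ^ n * Real.exp (-(Real.sqrt n / 200))
        ≤ C * (n + 2) * 3 ^ n * Real.exp (-(Real.sqrt n / 200)) := by gcongr
      _ = C * 3 ^ n * ((n + 2) * Real.exp (-(Real.sqrt n / 200))) := by ring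
      _ ≤ C * 3 ^ n * (K / n ^ 2) := by gcongr
      _ = _ := by ring
  constructor
  · -- lower bound
    have h1 : (sif n z : ℝ) ≤ (((Finset.univ : Finset (Fin n → Fin 3)).filter (fun a =>
        ∀ p, p.Prime → p ∣ av n a → Real.exp (n / (240000 * b)) ≤ p)).card : ℝ) := by
      have h2 : (Finset.univ : Finset (Fin n → Fin 3)).filter (fun b => ∀ r ∈ P5 z, ¬ r ∣ av n b) ⊆
          (Finset.univ : Finset (Fin n → Fin 3)).filter (fun a =>
            ∀ p, p.Prime → p ∣ av n a → Real.exp (n / (240000 * b)) ≤ p) := by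
        intro a ha
        rw [Finset.mem_filter] at ha ⊢
        refine ⟨Finset.mem_univ _, ?_⟩
        intro p hp hpd
        have h2 : p ≠ 2 := by rintro rfl; exact not_two_dvd_av n a hpd
        have h3 : p ≠ 3 := by rintro rfl; exact not_three_dvd_av n a hpd
        have h4 : p ≠ 4 := by rintro rfl; exact absurd hp (by norm_num)
        have h5 := hp.two_le
        have h6 : z < p := by
          by_contra hcon
          exact ha.2 p (mem_P5.mpr ⟨⟨by omega, by omega⟩, hp⟩) hpd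
        have h7 : (z : ℝ) + 1 ≤ p := by exact_mod_cast h6
        linarith
      exact_mod_cast Finset.card_le_card h2
    refine le_trans ?_ h1
    refine le_trans ?_ hlo
    have hVge : 240000 * b / (C₁ * n) ≤ ∏ p ∈ P5 z, (1 - 1 / (p : ℝ)) := by
      refine le_trans ?_ (V_le_P5 z)
      have h2 := hV z (by omega)
      have h3 : (V z)⁻¹ ≤ C₁ * (n / (240000 * b)) :=
        h2.trans (mul_le_mul_of_nonneg_left hlog2 hC₁.le)
      have h4 := V_pos z
      rw [inv_le_comm₀ h4 (by positivity)] at h3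
      refine le_trans (le_of_eq ?_) h3
      field_simp
    have h5 : (1 / 2) * (3 ^ n * (240000 * b / (C₁ * n))) ≤
        (1 / 2) * (3 ^ n * ∏ p ∈ P5 z, (1 - 1 / (p : ℝ))) := by gcongr
    have h6 : C * K * 3 ^ n / n ^ 2 ≤ 60000 * b / C₁ * 3 ^ n / n := by
      have h7 : C * K * C₁ ≤ n := by
        have h8 := Nat.le_ceil (C * K * C₁)
        have h9 : ((⌈C * K * C₁⌉₊ : ℕ) : ℝ) ≤ n := by exact_mod_cast (by omega)
        linarith
      rw [div_le_div_iff₀ (by positivity) hn0]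
      have h8 : C * K * 3 ^ n * n ≤ (60000 * b / C₁) * n * 3 ^ n * n := by
        have h9 : C * K ≤ (60000 * b / C₁) * n := by
          rw [div_mul_eq_mul_div, le_div_iff₀ hC₁]
          nlinarith
        have := mul_le_mul_of_nonneg_right h9 (show (0 : ℝ) ≤ 3 ^ n * n by positivity)
        linarith
      calc C * K * 3 ^ n * n ≤ (60000 * b / C₁) * n * 3 ^ n * n := h8
        _ = 60000 * b / C₁ * 3 ^ n * n ^ 2 := by ring
    have h7 : (1 / 2) * (3 ^ n * (240000 * b / (C₁ * n))) = 2 * (60000 * b / C₁ * 3 ^ n / n) := by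
      field_simp
      norm_num
    rw [h7] at h5
    linarith
  · -- upper bound
    have h1 : (((antipals (n + 1)).filter Nat.Prime).card : ℝ) ≤ sif n z := by
      have h2 : (antipals (n + 1)).filter Nat.Prime ⊆
          ((Finset.univ : Finset (Fin n → Fin 3)).filter
            (fun b => ∀ r ∈ P5 z, ¬ r ∣ av n b)).image (av n) := by
        intro p hp
        rw [Finset.mem_filter] at hp
        have hp2 := mem_antipals.mp hp.1
        have hbig : 3 ^ n < p := by
          calc 3 ^ n < 3 ^ (2 * (n + 1)) := Nat.pow_lt_pow_right (by norm_num) (by omega)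
            _ ≤ p := hp2.1.1
        have h3n : 3 ≤ 3 ^ n := by
          calc 3 = 3 ^ 1 := by norm_num
            _ ≤ 3 ^ n := Nat.pow_le_pow_right (by norm_num) hn1
        have h3 : ¬ 3 ∣ p := by
          intro h
          have := (Nat.prime_dvd_prime_iff_eq Nat.prime_three hp.2).mp h
          omega
        obtain ⟨a, ha⟩ := exists_av hp.1 h3
        rw [Finset.mem_image]
        refine ⟨a, ?_, ha⟩
        rw [Finset.mem_filter]
        refine ⟨Finset.mem_univ _, ?_⟩
        intro r hr hrd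
        rw [ha] at hrd
        have hr2 := mem_P5.mp hr
        have := (Nat.prime_dvd_prime_iff_eq hr2.2 hp.2).mp hrd
        omega
      have h3 := (Finset.card_le_card h2).trans Finset.card_image_le
      exact_mod_cast h3
    refine h1.trans (hup.trans ?_)
    have hVle : ∏ p ∈ P5 z, (1 - 1 / (p : ℝ)) ≤ 3 * (480000 * b / n) := by
      refine (P5_le_V hz3).trans ?_
      have h2 := Pool.Agent.Lib.GT.V_le z (by omega)
      have h3 : 1 / Real.log z ≤ 480000 * b / n := by
        rw [div_le_div_iff₀ hlogpos hn0]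
        rw [div_le_iff₀ (by positivity)] at hlog1
        linarith
      linarith
    have h4 : C * K * 3 ^ n / n ^ 2 ≤ C * K * 3 ^ n / n := by
      apply div_le_div_of_nonneg_left (by positivity) hn0
      nlinarith
    have h5 : 2 * (3 ^ n * ∏ p ∈ P5 z, (1 - 1 / (p : ℝ))) ≤ 2 * (3 ^ n * (3 * (480000 * b / n))) := by
      gcongr
    have h6 : 2 * ((3 : ℝ) ^ n * (3 * (480000 * b / n))) + C * K * 3 ^ n / n =
        (12 * 240000 * b + C * K) * 3 ^ n / n := by
      field_simp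
      ring
    linarith

end Pool.Agent.Lib.MP_f75418_nt
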