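import Pool.Agent.Lib.MP_f75418_nt.AP.Equi

/-!
# Large sieve type bounds: the grid and the Farey points
-/

open Finset

namespace Pool.Agent.Lib.MP_f75418_nt

lemma sum_shift_nine (g : ℤ → ℝ) (hg : ∀ j, g (j + 9) = g j) (k : ℤ) :
    ∑ s ∈ Finset.range 9, g (k + s) = ∑ s ∈ Finset.range 9, g s := by
  have step : ∀ k : ℤ, ∑ s ∈ Finset.range 9, g (k + 1 + s) = ∑ s ∈ Finset.range 9, g (k + s) := by
    intro k
    rw [Finset.sum_range_succ (fun s : ℕ => g (k + 1 + s)) 8,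
      Finset.sum_range_succ' (fun s : ℕ => g (k + s)) 8]
    have h1 : g (k + 1 + (8 : ℕ)) = g (k + (0 : ℕ)) := by
      rw [← hg (k + (0 : ℕ))]
      congr 1
      push_cast
      ring
    rw [h1]
    congr 1
    refine Finset.sum_congr rfl fun s _ => ?_
    congr 1
    push_cast
    ring
  have key : ∀ k : ℤ, ∑ s ∈ Finset.range 9, g (k + s) = ∑ s ∈ Finset.range 9, g (0 + s) := by
    intro k
    induction k using Int.induction_on with
    | zero => rfl
    | succ i ih => rw [step, ih]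
    | pred i ih =>
      rw [← ih, ← step (-(i : ℤ) - 1)]
      refine Finset.sum_congr rfl fun s _ => ?_
      congr 1
      ring
  rw [key]
  refine Finset.sum_congr rfl fun s _ => ?_
  rw [zero_add]

lemma nine_sum (y : ℝ) : ∑ s ∈ Finset.range 9, Real.exp (-(324 * nn (y + (s : ℕ) / 9) ^ 2)) ≤ 2 := by
  set k := round (9 * y) with hk
  set z := y - k / 9 with hz
  have hz1 : |z| ≤ 1 / 18 := by
    have h := abs_sub_round (9 * y)
    rw [← hk] at h
    have : z = (9 * y - k) / 9 := by rw [hz]; ring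
    rw [this, abs_div, abs_of_pos (by norm_num : (0 : ℝ) < 9)]
    linarith
  rw [abs_le] at hz1
  set g : ℤ → ℝ := fun j => Real.exp (-(324 * nn (z + j / 9) ^ 2)) with hg
  have h1 : ∑ s ∈ Finset.range 9, Real.exp (-(324 * nn (y + (s : ℕ) / 9) ^ 2)) =
      ∑ s ∈ Finset.range 9, g (k + (s : ℕ)) := by
    refine Finset.sum_congr rfl fun s _ => ?_
    simp only [hg]
    congr 4
    push_cast
    rw [hz]
    ring
  have h2 : ∀ j, g (j + 9) = g j := by
    intro j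
    simp only [hg]
    have : z + ((j + 9 : ℤ) : ℝ) / 9 = z + j / 9 + ((1 : ℤ) : ℝ) := by push_cast; ring
    rw [this, nn_add_int]
  rw [h1, sum_shift_nine g h2]
  have e1 : Real.exp (-1) ≤ 1 / 2.7 := by
    rw [Real.exp_neg, ← one_div]
    apply one_div_le_one_div_of_le (by norm_num)
    have := Real.exp_one_gt_d9
    linarith
  have e9 : Real.exp (-9) ≤ (1 / 2.7) ^ 9 := by
    have : Real.exp (-9) = Real.exp (-1) ^ 9 := by
      rw [← Real.exp_nat_mul]
      norm_num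
    rw [this]
    exact pow_le_pow_left₀ (Real.exp_pos _).le e1 9
  have b1 : ∀ t : ℝ, 1 / 18 ≤ nn t → Real.exp (-(324 * nn t ^ 2)) ≤ Real.exp (-1) := by
    intro t ht
    rw [Real.exp_le_exp]
    have : (1 / 18 : ℝ) ^ 2 ≤ nn t ^ 2 := pow_le_pow_left₀ (by norm_num) ht 2
    linarith
  have b9 : ∀ t : ℝ, 1 / 6 ≤ nn t → Real.exp (-(324 * nn t ^ 2)) ≤ Real.exp (-9) := by
    intro t ht
    rw [Real.exp_le_exp]
    have : (1 / 6 : ℝ) ^ 2 ≤ nn t ^ 2 := pow_le_pow_left₀ (by norm_num) ht 2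
    linarith
  have b0 : ∀ t : ℝ, Real.exp (-(324 * nn t ^ 2)) ≤ 1 := by
    intro t
    rw [Real.exp_le_one_iff]
    have := sq_nonneg (nn t)
    linarith
  simp only [Finset.sum_range_succ, Finset.sum_range_zero, hg]
  push_cast
  have c0 := b0 (z + 0 / 9)
  have c1 := b1 (z + 1 / 9) (le_nn (by linarith) (by linarith) (by norm_num))
  have c2 := b9 (z + 2 / 9) (le_nn (by linarith) (by linarith) (by norm_num))
  have c3 := b9 (z + 3 / 9) (le_nn (by linarith) (by linarith) (by norm_num))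
  have c4 := b9 (z + 4 / 9) (le_nn (by linarith) (by linarith) (by norm_num))
  have c5 := b9 (z + 5 / 9) (le_nn (by linarith) (by linarith) (by norm_num))
  have c6 := b9 (z + 6 / 9) (le_nn (by linarith) (by linarith) (by norm_num))
  have c7 := b9 (z + 7 / 9) (le_nn (by linarith) (by linarith) (by norm_num))
  have c8 := b1 (z + 8 / 9) (le_nn (by linarith) (by linarith) (by norm_num))
  have e9' : (1 / 2.7 : ℝ) ^ 9 ≤ 1 / 1000 := by norm_num
  have e1' : (1 / 2.7 : ℝ) ≤ 4 / 10 := by norm_num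
  linarith

lemma sum_range_mul_eq (m n : ℕ) (F : ℕ → ℝ) :
    ∑ b ∈ Finset.range (m * n), F b = ∑ r ∈ Finset.range m, ∑ s ∈ Finset.range n, F (r + m * s) := by
  induction n with
  | zero => simp
  | succ n ih =>
    rw [Nat.mul_succ, Finset.sum_range_add, ih, ← Finset.sum_add_distrib]
    refine Finset.sum_congr rfl fun r _ => ?_
    rw [Finset.sum_range_succ, add_comm (m * n) r]

lemma grid (L : ℕ) : ∀ x : ℝ,
    ∑ b ∈ Finset.range (9 ^ L), GG 324 L (x + (b : ℕ) / 9 ^ L) ≤ 2 ^ L := by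
  induction L with
  | zero => intro x; simp [GG, QQ]
  | succ L ih =>
    intro x
    rw [pow_succ 9 L, sum_range_mul_eq]
    have h1 : ∀ r ∈ Finset.range (9 ^ L), ∑ s ∈ Finset.range 9,
        GG 324 (L + 1) (x + ((r + 9 ^ L * s : ℕ) : ℝ) / 9 ^ (L + 1)) ≤
        2 * GG 324 L (9 * x + (r : ℕ) / 9 ^ L) := by
      intro r _
      have h2 : ∀ s ∈ Finset.range 9, GG 324 (L + 1) (x + ((r + 9 ^ L * s : ℕ) : ℝ) / 9 ^ (L + 1)) =
          Real.exp (-(324 * nn (x + r / 9 ^ (L + 1) + (s : ℕ) / 9) ^ 2)) *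
            GG 324 L (9 * x + (r : ℕ) / 9 ^ L) := by
        intro s _
        have e1 : x + ((r + 9 ^ L * s : ℕ) : ℝ) / 9 ^ (L + 1) = x + r / 9 ^ (L + 1) + (s : ℕ) / 9 := by
          push_cast
          rw [pow_succ]
          field_simp
          ring
        rw [e1, show L + 1 = 1 + L by ring, GG_add]
        congr 1
        · unfold GG QQ
          simp
        · rw [show 1 + L = L + 1 by ring]
          have e2 : 9 ^ 1 * (x + (r : ℝ) / 9 ^ (L + 1) + (s : ℕ) / 9) =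
              9 * x + (r : ℕ) / 9 ^ L + ((s : ℤ) : ℝ) := by
            push_cast
            rw [pow_succ (9 : ℝ) L, pow_one]
            field_simp
          rw [e2, GG_add_int]
      rw [Finset.sum_congr rfl h2, ← Finset.sum_mul]
      exact mul_le_mul_of_nonneg_right (nine_sum _) (GG_pos _ _ _).le
    refine (Finset.sum_le_sum h1).trans ?_
    rw [← Finset.mul_sum, pow_succ 2 L, mul_comm]
    exact mul_le_mul_of_nonneg_right (ih (9 * x)) (by norm_num)

lemma sum_geo81 (L : ℕ) : ∑ i ∈ Finset.range L, ((9 : ℝ) ^ i / 9 ^ L) ^ 2 ≤ 1 / 80 := by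
  have h : ∀ L : ℕ, ∑ i ∈ Finset.range L, ((9 : ℝ) ^ i / 9 ^ L) ^ 2 = (1 - 1 / 81 ^ L) / 80 := by
    intro L
    induction L with
    | zero => simp
    | succ L ih =>
      rw [Finset.sum_range_succ]
      have h1 : ∀ i ∈ Finset.range L, ((9 : ℝ) ^ i / 9 ^ (L + 1)) ^ 2 =
          (1 / 81) * ((9 : ℝ) ^ i / 9 ^ L) ^ 2 := by
        intro i _
        rw [pow_succ 9 L]
        field_simp
        ring
      have e : ((9 : ℝ) ^ L / 9 ^ (L + 1)) ^ 2 = 1 / 81 := by
        rw [pow_succ (9 : ℝ) L]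
        field_simp
        norm_num
      rw [Finset.sum_congr rfl h1, ← Finset.mul_sum, ih, e, pow_succ (81 : ℝ) L]
      field_simp
      ring
  rw [h]
  have : (0 : ℝ) ≤ 1 / 81 ^ L := by positivity
  linarith

lemma GG_round {L : ℕ} {x y : ℝ} (h0 : y ≤ x) (h1 : x - y ≤ 1 / 9 ^ L) :
    GG 648 L x ≤ Real.exp 9 * GG 324 L y := by
  unfold GG
  rw [← Real.exp_add, Real.exp_le_exp]
  have h2 : QQ L y ≤ 2 * QQ L x + 2 * ∑ i ∈ Finset.range L, ((9 : ℝ) ^ i / 9 ^ L) ^ 2 := by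
    unfold QQ
    rw [Finset.mul_sum, Finset.mul_sum, ← Finset.sum_add_distrib]
    refine Finset.sum_le_sum fun i _ => ?_
    have h3 : nn (9 ^ i * y) ≤ nn (9 ^ i * x) + 9 ^ i / 9 ^ L := by
      have h4 := nn_add_le (9 ^ i * x) (-(9 ^ i * (x - y)))
      rw [nn_neg, show 9 ^ i * x + -(9 ^ i * (x - y)) = 9 ^ i * y by ring] at h4
      have h5 := nn_le_abs (9 ^ i * (x - y))
      rw [abs_of_nonneg (mul_nonneg (by positivity) (by linarith))] at h5
      have h6 : (9 : ℝ) ^ i * (x - y) ≤ 9 ^ i * (1 / 9 ^ L) :=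
        mul_le_mul_of_nonneg_left h1 (by positivity)
      have h7 : (9 : ℝ) ^ i * (1 / 9 ^ L) = 9 ^ i / 9 ^ L := by ring
      linarith
    have h8 : nn (9 ^ i * y) ^ 2 ≤ (nn (9 ^ i * x) + 9 ^ i / 9 ^ L) ^ 2 :=
      pow_le_pow_left₀ (nn_nonneg _) h3 2
    nlinarith [sq_nonneg (nn (9 ^ i * x) - 9 ^ i / 9 ^ L)]
  have h9 := sum_geo81 L
  linarith

/-- Farey points with denominators at most `3^L` are `9^(-L)`-separated -/
theorem farey (L : ℕ) : ∑ q ∈ Finset.Icc 1 (3 ^ L), ∑ c ∈ red q, GG 648 L ((c : ℝ) / q) ≤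
    Real.exp 9 * 2 ^ L := by
  classical
  rw [Finset.sum_sigma']
  have h1 : ∀ x ∈ (Finset.Icc 1 (3 ^ L)).sigma red, GG 648 L ((x.2 : ℝ) / x.1) ≤
      (fun b : ℕ => Real.exp 9 * GG 324 L (0 + (b : ℕ) / 9 ^ L)) (9 ^ L * x.2 / x.1) := by
    intro x hx
    rw [Finset.mem_sigma, Finset.mem_Icc] at hx
    have hq : (0 : ℝ) < x.1 := by exact_mod_cast hx.1.1
    have hp : (0 : ℝ) < 9 ^ L := by positivity
    simp only
    rw [zero_add]
    apply GG_round
    · rw [div_le_div_iff₀ hp hq]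
      have := Nat.div_mul_le_self (9 ^ L * x.2) x.1
      have h : ((9 ^ L * x.2 / x.1 * x.1 : ℕ) : ℝ) ≤ ((9 ^ L * x.2 : ℕ) : ℝ) := by exact_mod_cast this
      push_cast at h
      linarith
    · rw [div_sub_div _ _ hq.ne' hp.ne', div_le_div_iff₀ (by positivity) hp]
      have := Nat.lt_succ_iff.mpr (le_refl 0)
      have h := Nat.lt_div_mul_add (a := 9 ^ L * x.2) (b := x.1) hx.1.1
      have h' : ((9 ^ L * x.2 : ℕ) : ℝ) ≤ ((9 ^ L * x.2 / x.1 * x.1 + x.1 : ℕ) : ℝ) := by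
        exact_mod_cast h.le
      push_cast at h'
      have h2 : (x.2 : ℝ) * 9 ^ L - x.1 * ((9 ^ L * x.2 / x.1 : ℕ) : ℝ) ≤ x.1 := by linarith
      calc ((x.2 : ℝ) * 9 ^ L - x.1 * ((9 ^ L * x.2 / x.1 : ℕ) : ℝ)) * 9 ^ L ≤ x.1 * 9 ^ L :=
            mul_le_mul_of_nonneg_right h2 hp.le
        _ = 1 * (x.1 * 9 ^ L) := by ring
  refine (Finset.sum_le_sum h1).trans ?_
  rw [← Finset.sum_image (s := (Finset.Icc 1 (3 ^ L)).sigma red)
    (g := fun x : Σ _ : ℕ, ℕ => 9 ^ L * x.2 / x.1)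
    (f := fun b : ℕ => Real.exp 9 * GG 324 L (0 + (b : ℕ) / 9 ^ L))]
  · refine le_trans (Finset.sum_le_sum_of_subset_of_nonneg (t := Finset.range (9 ^ L)) ?_
      (fun b _ _ => mul_nonneg (Real.exp_pos _).le (GG_pos _ _ _).le)) ?_
    · intro b hb
      obtain ⟨x, hx, rfl⟩ := Finset.mem_image.mp hb
      rw [Finset.mem_sigma, Finset.mem_Icc, mem_red] at hx
      rw [Finset.mem_range]
      apply Nat.div_lt_of_lt_mul
      rw [mul_comm x.1]
      exact Nat.mul_lt_mul_of_pos_left hx.2.1 (by positivity)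
    · rw [← Finset.mul_sum]
      exact mul_le_mul_of_nonneg_left (grid L 0) (Real.exp_pos _).le
  · have key : ∀ x ∈ (Finset.Icc 1 (3 ^ L)).sigma red, ∀ y ∈ (Finset.Icc 1 (3 ^ L)).sigma red,
        9 ^ L * x.2 / x.1 = 9 ^ L * y.2 / y.1 → x.2 * y.1 ≤ y.2 * x.1 := by
      intro x hx y hy hxy
      rw [Finset.mem_sigma, Finset.mem_Icc, mem_red] at hx hy
      have a1 := Nat.lt_div_mul_add (a := 9 ^ L * x.2) (b := x.1) hx.1.1
      have a2 := Nat.div_mul_le_self (9 ^ L * y.2) y.1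
      rw [hxy] at a1
      set B := 9 ^ L * y.2 / y.1
      by_contra hcon
      push Not at hcon
      have a3 : 9 ^ L * x.2 * y.1 < (B * x.1 + x.1) * y.1 := Nat.mul_lt_mul_of_pos_right a1 hy.1.1
      have a4 : B * y.1 * x.1 ≤ 9 ^ L * y.2 * x.1 := Nat.mul_le_mul_right x.1 a2
      have a5 : x.1 * y.1 ≤ 9 ^ L := by
        calc x.1 * y.1 ≤ 3 ^ L * 3 ^ L := Nat.mul_le_mul hx.1.2 hy.1.2
          _ = 9 ^ L := by rw [← mul_pow]; norm_num
      have a6 : 9 ^ L * (y.2 * x.1 + 1) ≤ 9 ^ L * (x.2 * y.1) := Nat.mul_le_mul_left _ hcon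
      nlinarith
    intro x hx y hy hxy
    have hx' := Finset.mem_coe.mp hx
    have hy' := Finset.mem_coe.mp hy
    have h1 := key x hx' y hy' hxy
    have h2 := key y hy' x hx' hxy.symm
    have h3 : x.2 * y.1 = y.2 * x.1 := le_antisymm h1 h2
    rw [Finset.mem_sigma, Finset.mem_Icc, mem_red] at hx' hy'
    have d1 : x.1 ∣ y.1 := by
      have : x.1 ∣ x.2 * y.1 := ⟨y.2, by rw [h3]; ring⟩
      exact (Nat.Coprime.dvd_of_dvd_mul_left hx'.2.2.symm this)
    have d2 : y.1 ∣ x.1 := by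
      have : y.1 ∣ y.2 * x.1 := ⟨x.2, by rw [← h3]; ring⟩
      exact (Nat.Coprime.dvd_of_dvd_mul_left hy'.2.2.symm this)
    have h4 : x.1 = y.1 := Nat.dvd_antisymm d1 d2
    have h5 : x.2 = y.2 := by
      rw [h4] at h3
      exact Nat.eq_of_mul_eq_mul_right hy'.1.1 h3
    obtain ⟨x1, x2⟩ := x
    obtain ⟨y1, y2⟩ := y
    simp only at h4 h5
    subst h4 h5
    rfl

end Pool.Agent.Lib.MP_f75418_nt
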