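import Pool.Agent.Lib.MP_f75418_nt.AP.Blocks

/-!
# Level of distribution of antipalindromic numbers
-/

open Finset

namespace Pool.Agent.Lib.MP_f75418_nt

lemma two_thirds_le (L : ℕ) : (2 / 3 : ℝ) ^ L ≤ Real.exp (-(L / 3)) := by
  have h : (2 / 3 : ℝ) ≤ Real.exp (-(1 / 3)) := by
    have := Real.add_one_le_exp (-(1 / 3 : ℝ))
    linarith
  calc (2 / 3 : ℝ) ^ L ≤ Real.exp (-(1 / 3)) ^ L := pow_le_pow_left₀ (by norm_num) h L
    _ = Real.exp (-(L / 3)) := by
      rw [← Real.exp_nat_mul]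
      congr 1
      ring

/-- the sum over the scales -/
theorem calc_sum : ∃ C : ℝ, 0 < C ∧ ∀ m Λ : ℕ, ∑ L ∈ Finset.Icc 1 Λ, (2 / 3 : ℝ) ^ L *
    Real.exp (-(((m / L : ℕ) : ℝ) / 1215)) ≤ C * Real.exp (-(Real.sqrt m / 50)) := by
  have hr1 : Real.exp (-(1 / 6)) < 1 := by
    have h := Real.exp_lt_exp.mpr (show (-(1 / 6) : ℝ) < 0 by norm_num)
    rwa [Real.exp_zero] at h
  have hr0 : 0 < Real.exp (-(1 / 6)) := Real.exp_pos _
  refine ⟨Real.exp (1 / 1215) * (1 - Real.exp (-(1 / 6)))⁻¹,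
    mul_pos (Real.exp_pos _) (inv_pos.mpr (by linarith)), ?_⟩
  intro m Λ
  have h1 : ∀ L ∈ Finset.Icc 1 Λ, (2 / 3 : ℝ) ^ L * Real.exp (-(((m / L : ℕ) : ℝ) / 1215)) ≤
      Real.exp (1 / 1215) * Real.exp (-(Real.sqrt m / 50)) * Real.exp (-(1 / 6)) ^ L := by
    intro L hL
    have hL1 : (1 : ℝ) ≤ L := by exact_mod_cast (Finset.mem_Icc.mp hL).1
    have hL0 : 0 < L := (Finset.mem_Icc.mp hL).1
    have h2 : (m : ℝ) / L - 1 ≤ ((m / L : ℕ) : ℝ) := by
      have h3 := Nat.lt_div_mul_add (a := m) (b := L) hL0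
      have h4 : (m : ℝ) ≤ ((m / L : ℕ) : ℝ) * L + L := by exact_mod_cast h3.le
      rw [sub_le_iff_le_add, div_le_iff₀ (by linarith)]
      linarith
    calc (2 / 3 : ℝ) ^ L * Real.exp (-(((m / L : ℕ) : ℝ) / 1215))
        ≤ Real.exp (-(L / 3)) * Real.exp (-(((m : ℝ) / L - 1) / 1215)) := by
          refine mul_le_mul (two_thirds_le L) ?_ (Real.exp_pos _).le (Real.exp_pos _).le
          rw [Real.exp_le_exp]
          linarith
      _ = Real.exp (1 / 1215 - L / 3 - (m : ℝ) / L / 1215) := by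
          rw [← Real.exp_add]; congr 1; ring
      _ ≤ Real.exp (1 / 1215 - Real.sqrt m / 50 - L / 6) := by
          rw [Real.exp_le_exp]
          have hs : Real.sqrt m ^ 2 = m := Real.sq_sqrt (Nat.cast_nonneg m)
          have hs0 := Real.sqrt_nonneg (m : ℝ)
          set s := Real.sqrt m
          -- L/6 + s²/(1215 L) ≥ s/50
          have h5 : s / 50 ≤ L / 6 + (m : ℝ) / L / 1215 := by
            rw [← hs]
            have hLp : (0 : ℝ) < L := by linarith
            have h6 : (L : ℝ) / 6 + s ^ 2 / L / 1215 = (1215 * (L : ℝ) ^ 2 + 6 * s ^ 2) / (7290 * L) := by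
              field_simp
              ring
            rw [h6, div_le_div_iff₀ (by norm_num) (by positivity)]
            nlinarith [sq_nonneg (14 * (L : ℝ) - s)]
          linarith
      _ = _ := by
          rw [← Real.exp_nat_mul, ← Real.exp_add, ← Real.exp_add]
          congr 1
          ring
  refine (Finset.sum_le_sum h1).trans ?_
  rw [← Finset.mul_sum]
  have h2 : ∑ L ∈ Finset.Icc 1 Λ, Real.exp (-(1 / 6)) ^ L ≤ (1 - Real.exp (-(1 / 6)))⁻¹ := by
    refine le_trans (Finset.sum_le_sum_of_subset_of_nonneg (t := Finset.range (Λ + 1)) ?_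
      (fun _ _ _ => by positivity)) ?_
    · intro L hL
      rw [Finset.mem_Icc] at hL
      rw [Finset.mem_range]
      omega
    · rw [geom_sum_eq hr1.ne, ← neg_div_neg_eq, neg_sub, neg_sub, inv_eq_one_div]
      have : 0 < Real.exp (-(1 / 6)) ^ (Λ + 1) := by positivity
      apply div_le_div_of_nonneg_right _ (by linarith)
      linarith
  calc Real.exp (1 / 1215) * Real.exp (-(Real.sqrt m / 50)) * ∑ L ∈ Finset.Icc 1 Λ,
        Real.exp (-(1 / 6)) ^ L
      ≤ Real.exp (1 / 1215) * Real.exp (-(Real.sqrt m / 50)) * (1 - Real.exp (-(1 / 6)))⁻¹ :=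
        mul_le_mul_of_nonneg_left h2 (by positivity)
    _ = _ := by ring

/-- exchanging the sums over moduli and denominators -/
lemma exchange (D : ℕ) (w : ℕ → ℝ) (hw : ∀ q, 0 ≤ w q) :
    ∑ d ∈ (Finset.Icc 1 D).filter (fun d => Nat.Coprime d 6), (1 / (d : ℝ)) *
      ∑ q ∈ d.divisors.erase 1, w q ≤
    (1 + Real.log D) * ∑ q ∈ (Finset.Icc 2 D).filter (fun q => Nat.Coprime q 6), (1 / (q : ℝ)) * w q := by
  classical
  rcases Nat.eq_zero_or_pos D with rfl | hD
  · simp
  have h1 : ∀ d ∈ (Finset.Icc 1 D).filter (fun d => Nat.Coprime d 6),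
      (1 / (d : ℝ)) * ∑ q ∈ d.divisors.erase 1, w q =
      ∑ q ∈ (Finset.Icc 2 D).filter (fun q => Nat.Coprime q 6),
        if q ∣ d then (1 / (d : ℝ)) * w q else 0 := by
    intro d hd
    rw [Finset.mem_filter, Finset.mem_Icc] at hd
    rw [← Finset.sum_filter, Finset.mul_sum]
    refine Finset.sum_congr ?_ fun _ _ => rfl
    ext q
    rw [Finset.mem_erase, Nat.mem_divisors, Finset.mem_filter, Finset.mem_filter, Finset.mem_Icc]
    constructor
    · rintro ⟨h2, h3, h4⟩
      have h5 : q ≤ d := Nat.le_of_dvd (by omega) h3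
      have h6 : 0 < q := Nat.pos_of_dvd_of_pos h3 (by omega)
      exact ⟨⟨⟨by omega, by omega⟩, Nat.Coprime.coprime_dvd_left h3 hd.2⟩, h3⟩
    · rintro ⟨⟨⟨h2, h3⟩, h4⟩, h5⟩
      exact ⟨by omega, h5, by omega⟩
  rw [Finset.sum_congr rfl h1, Finset.sum_comm, Finset.mul_sum]
  refine Finset.sum_le_sum fun q hq => ?_
  rw [Finset.mem_filter, Finset.mem_Icc] at hq
  have hq0 : 0 < q := by omega
  have hq' : (0 : ℝ) < q := by exact_mod_cast hq0
  rw [← Finset.sum_filter, ← Finset.sum_mul]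
  have h2 : ∑ d ∈ ((Finset.Icc 1 D).filter (fun d => Nat.Coprime d 6)).filter (fun d => q ∣ d),
      1 / (d : ℝ) ≤ (1 / q) * ∑ k ∈ Finset.Icc 1 D, 1 / (k : ℝ) := by
    rw [Finset.mul_sum]
    have h3 : ((Finset.Icc 1 D).filter (fun d => Nat.Coprime d 6)).filter (fun d => q ∣ d) ⊆
        (Finset.Icc 1 D).image (fun k => q * k) := by
      intro d hd
      rw [Finset.mem_filter, Finset.mem_filter, Finset.mem_Icc] at hd
      obtain ⟨k, rfl⟩ := hd.2
      rw [Finset.mem_image]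
      refine ⟨k, ?_, rfl⟩
      rw [Finset.mem_Icc]
      constructor
      · rcases Nat.eq_zero_or_pos k with rfl | hk
        · simp at hd
        · exact hk
      · calc k ≤ q * k := Nat.le_mul_of_pos_left k hq0
          _ ≤ D := hd.1.1.2
    refine (Finset.sum_le_sum_of_subset_of_nonneg h3 (fun _ _ _ => by positivity)).trans ?_
    rw [Finset.sum_image (fun a _ b _ hab => Nat.eq_of_mul_eq_mul_left hq0 hab)]
    apply le_of_eq
    refine Finset.sum_congr rfl fun k _ => ?_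
    push_cast
    rw [one_div_mul_one_div]
  have h3 : ∑ k ∈ Finset.Icc 1 D, 1 / (k : ℝ) ≤ 1 + Real.log D := by
    have h4 := harmonic_le_one_add_log D
    rw [harmonic_eq_sum_Icc] at h4
    push_cast at h4
    simpa [one_div] using h4
  calc (∑ d ∈ ((Finset.Icc 1 D).filter (fun d => Nat.Coprime d 6)).filter (fun d => q ∣ d),
        1 / (d : ℝ)) * w q ≤ ((1 / q) * (1 + Real.log D)) * w q := by
        refine mul_le_mul_of_nonneg_right (h2.trans ?_) (hw q)
        exact mul_le_mul_of_nonneg_left h3 (by positivity)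
    _ = (1 + Real.log D) * (1 / (q : ℝ) * w q) := by ring

/-- **Level of distribution** `e^(n/20000)`. -/
theorem level : ∃ C : ℝ, 0 < C ∧ ∀ n D : ℕ, (D : ℝ) ≤ Real.exp (n / 20000) →
    ∑ d ∈ (Finset.Icc 1 D).filter (fun d => Nat.Coprime d 6), |(Ad n d : ℝ) - 3 ^ n / d| ≤
      C * 3 ^ n * Real.exp (-(Real.sqrt n / 200)) := by
  obtain ⟨C, hC, hcalc⟩ := calc_sum
  refine ⟨3 * Real.exp 9 * C * Real.exp 1 * 80000, by positivity, ?_⟩
  intro n D hD
  rcases Nat.eq_zero_or_pos D with hD0 | hD0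
  · rw [hD0]
    simp
    positivity
  have hDr : (1 : ℝ) ≤ D := by exact_mod_cast hD0
  set Λ := n / 9720 with hΛ
  set m₁ := n / 4 with hm₁
  set m₂ := n / 4 with hm₂
  have hm : m₂ + m₁ ≤ n / 2 := by omega
  have hΛm : 2430 * Λ ≤ m₂ := by omega
  have hDΛ : D ≤ 3 ^ Λ := by
    rcases Nat.eq_zero_or_pos Λ with h0 | h0
    · rw [h0, pow_zero]
      have hn : n < 9720 := by omega
      have h1 : (n : ℝ) / 20000 ≤ 1 / 2 := by
        have : (n : ℝ) ≤ 9720 := by exact_mod_cast hn.le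
        linarith
      have h2 : Real.exp (n / 20000) < 2 := by
        calc Real.exp (n / 20000) ≤ Real.exp (1 / 2) := Real.exp_le_exp.mpr h1
          _ < 2 := by
            have h3 : Real.exp (1 / 2) ^ 2 = Real.exp 1 := by
              rw [← Real.exp_nat_mul]; norm_num
            have h4 := Real.exp_one_lt_d9
            have h5 : 0 < Real.exp (1 / 2) := Real.exp_pos _
            nlinarith
      have h3 : (D : ℝ) < 2 := lt_of_le_of_lt hD h2
      have h4 : D < 2 := by exact_mod_cast h3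
      omega
    · have h1 : (n : ℝ) / 20000 ≤ Λ := by
        have h2 : n < 9720 * (Λ + 1) := by omega
        have h3 : (n : ℝ) ≤ 9720 * (Λ + 1) := by exact_mod_cast h2.le
        have h4 : (1 : ℝ) ≤ Λ := by exact_mod_cast h0
        linarith
      have h2 : Real.exp (n / 20000) ≤ 3 ^ Λ := by
        calc Real.exp (n / 20000) ≤ Real.exp (Λ : ℝ) := Real.exp_le_exp.mpr h1
          _ = Real.exp 1 ^ Λ := by rw [← Real.exp_nat_mul, mul_one]
          _ ≤ 3 ^ Λ := by
            refine pow_le_pow_left₀ (Real.exp_pos _).le ?_ _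
            have := Real.exp_one_lt_d9
            linarith
      exact_mod_cast hD.trans h2
  have h1 : ∑ d ∈ (Finset.Icc 1 D).filter (fun d => Nat.Coprime d 6), |(Ad n d : ℝ) - 3 ^ n / d| ≤
      3 ^ n * ∑ d ∈ (Finset.Icc 1 D).filter (fun d => Nat.Coprime d 6), (1 / (d : ℝ)) *
        ∑ q ∈ d.divisors.erase 1, W (m₂ + m₁) q := by
    rw [Finset.mul_sum]
    refine Finset.sum_le_sum fun d hd => ?_
    rw [Finset.mem_filter, Finset.mem_Icc] at hd
    refine (Ad_sub_le' (by omega)).trans ?_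
    rw [← mul_assoc, mul_one_div]
    refine mul_le_mul_of_nonneg_left ?_ (by positivity)
    refine Finset.sum_le_sum fun q _ => ?_
    unfold W
    exact Finset.sum_le_sum fun c _ => GG_anti (by norm_num) hm _
  have h2 := exchange D (fun q => W (m₂ + m₁) q) (fun q => W_nonneg _ q)
  have h3 : ∑ q ∈ (Finset.Icc 2 D).filter (fun q => Nat.Coprime q 6), (1 / (q : ℝ)) *
      W (m₂ + m₁) q ≤ 3 * Real.exp 9 * (C * Real.exp (-(Real.sqrt m₁ / 50))) := by
    refine le_trans ?_ (total m₁ m₂ Λ hΛm |>.trans ?_)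
    · refine Finset.sum_le_sum_of_subset_of_nonneg ?_ ?_
      · intro q hq
        rw [Finset.mem_filter, Finset.mem_Icc] at hq ⊢
        exact ⟨⟨hq.1.1, hq.1.2.trans hDΛ⟩, hq.2⟩
      · intro q _ _
        exact mul_nonneg (by positivity) (W_nonneg _ q)
    · exact mul_le_mul_of_nonneg_left (hcalc m₁ Λ) (by positivity)
  have hlog : 1 + Real.log D ≤ 1 + n := by
    have h4 : Real.log D ≤ n / 20000 := by
      rw [Real.log_le_iff_le_exp (by linarith)]
      exact hD
    have h5 : (0 : ℝ) ≤ n := Nat.cast_nonneg n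
    linarith
  have hlog0 : 0 ≤ Real.log D := Real.log_nonneg hDr
  -- the square roots
  have hsq : Real.sqrt n / 2 - 1 ≤ Real.sqrt m₁ := by
    have h4 : n ≤ 4 * (m₁ + 1) := by omega
    have h5 : (n : ℝ) ≤ 4 * (m₁ + 1) := by exact_mod_cast h4
    have hs := Real.sq_sqrt (show (0 : ℝ) ≤ m₁ from Nat.cast_nonneg _)
    have hs0 := Real.sqrt_nonneg (m₁ : ℝ)
    rw [sub_le_iff_le_add, div_le_iff₀ (by norm_num)]
    apply Real.sqrt_le_iff.mpr
    constructor
    · positivity
    · nlinarith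
  have hE : (1 + (n : ℝ)) * Real.exp (-(Real.sqrt m₁ / 50)) ≤
      Real.exp 1 * 80000 * Real.exp (-(Real.sqrt n / 200)) := by
    have hs := Real.sq_sqrt (show (0 : ℝ) ≤ n from Nat.cast_nonneg _)
    have hs0 := Real.sqrt_nonneg (n : ℝ)
    set x := Real.sqrt n
    have h4 : 1 + (n : ℝ) ≤ 80000 * Real.exp (x / 200) := by
      have h5 := Real.quadratic_le_exp_of_nonneg (show 0 ≤ x / 200 by positivity)
      rw [← hs]
      nlinarith
    have h6 : Real.exp (-(Real.sqrt m₁ / 50)) ≤ Real.exp 1 * Real.exp (-(x / 100)) := by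
      rw [← Real.exp_add, Real.exp_le_exp]
      linarith
    calc (1 + (n : ℝ)) * Real.exp (-(Real.sqrt m₁ / 50))
        ≤ (80000 * Real.exp (x / 200)) * (Real.exp 1 * Real.exp (-(x / 100))) :=
          mul_le_mul h4 h6 (Real.exp_pos _).le (by positivity)
      _ = Real.exp 1 * 80000 * (Real.exp (x / 200) * Real.exp (-(x / 100))) := by ring
      _ = _ := by
        rw [← Real.exp_add]
        congr 2
        ring
  have hT0 : 0 ≤ ∑ q ∈ (Finset.Icc 2 D).filter (fun q => Nat.Coprime q 6), (1 / (q : ℝ)) *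
      W (m₂ + m₁) q := Finset.sum_nonneg fun q _ => mul_nonneg (by positivity) (W_nonneg _ q)
  calc ∑ d ∈ (Finset.Icc 1 D).filter (fun d => Nat.Coprime d 6), |(Ad n d : ℝ) - 3 ^ n / d|
      ≤ 3 ^ n * ((1 + Real.log D) * ∑ q ∈ (Finset.Icc 2 D).filter (fun q => Nat.Coprime q 6),
          (1 / (q : ℝ)) * W (m₂ + m₁) q) :=
        h1.trans (mul_le_mul_of_nonneg_left h2 (by positivity))
    _ ≤ 3 ^ n * ((1 + n) * (3 * Real.exp 9 * (C * Real.exp (-(Real.sqrt m₁ / 50))))) := by
        refine mul_le_mul_of_nonneg_left ?_ (by positivity)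
        exact mul_le_mul hlog h3 hT0 (by positivity)
    _ = 3 * Real.exp 9 * C * 3 ^ n * ((1 + (n : ℝ)) * Real.exp (-(Real.sqrt m₁ / 50))) := by ring
    _ ≤ 3 * Real.exp 9 * C * 3 ^ n * (Real.exp 1 * 80000 * Real.exp (-(Real.sqrt n / 200))) :=
        mul_le_mul_of_nonneg_left hE (by positivity)
    _ = _ := by ring

end Pool.Agent.Lib.MP_f75418_nt
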