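import Mathlib

/-!
# Distance to the nearest integer and the sums `QQ`
-/

open Finset

namespace Pool.Agent.Lib.MP_f75418_nt

/-- distance to the nearest integer -/
noncomputable def nn (t : ℝ) : ℝ := |t - round t|

lemma nn_nonneg (t : ℝ) : 0 ≤ nn t := abs_nonneg _

lemma nn_le_half (t : ℝ) : nn t ≤ 1 / 2 := abs_sub_round t

lemma nn_le_abs_sub (t : ℝ) (k : ℤ) : nn t ≤ |t - k| := round_le t k

lemma nn_le_abs (t : ℝ) : nn t ≤ |t| := by
  have := nn_le_abs_sub t 0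
  simpa using this

lemma nn_add_int (t : ℝ) (k : ℤ) : nn (t + k) = nn t := by
  unfold nn
  rw [round_add_intCast]
  push_cast
  congr 1
  ring

lemma nn_sub_int (t : ℝ) (k : ℤ) : nn (t - k) = nn t := by
  have := nn_add_int (t - k) k
  rw [sub_add_cancel] at this
  exact this.symm

lemma nn_neg (t : ℝ) : nn (-t) = nn t := by
  apply le_antisymm
  · have := nn_le_abs_sub (-t) (-round t)
    refine this.trans (le_of_eq ?_)
    unfold nn
    push_cast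
    rw [← abs_neg]
    congr 1
    ring
  · have := nn_le_abs_sub t (-round (-t))
    refine this.trans (le_of_eq ?_)
    unfold nn
    push_cast
    rw [← abs_neg]
    congr 1
    ring

lemma nn_add_le (s t : ℝ) : nn (s + t) ≤ nn s + nn t := by
  refine (nn_le_abs_sub (s + t) (round s + round t)).trans ?_
  unfold nn
  push_cast
  rw [show s + t - (round s + round t) = (s - round s) + (t - round t) by ring]
  exact abs_add_le _ _

lemma nn_three_mul_le (t : ℝ) : nn (3 * t) ≤ 3 * nn t := by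
  refine (nn_le_abs_sub (3 * t) (3 * round t)).trans (le_of_eq ?_)
  unfold nn
  push_cast
  rw [← mul_sub, abs_mul, abs_of_nonneg (by norm_num : (0 : ℝ) ≤ 3)]

/-- lower bound on an interval -/
lemma le_nn {t δ : ℝ} (h1 : δ ≤ t) (h2 : t ≤ 1 - δ) (h0 : 0 ≤ δ) : δ ≤ nn t := by
  unfold nn
  rcases le_or_gt (round t) 0 with h | h
  · have h' : ((round t : ℤ) : ℝ) ≤ 0 := by exact_mod_cast h
    calc δ ≤ t - round t := by linarith
      _ ≤ |t - round t| := le_abs_self _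
  · have h' : (1 : ℝ) ≤ ((round t : ℤ) : ℝ) := by exact_mod_cast h
    calc δ ≤ -(t - round t) := by linarith
      _ ≤ |t - round t| := neg_le_abs _

lemma nn_nine_mul {t : ℝ} (h : nn t < 1 / 18) : nn (9 * t) = 9 * nn t := by
  have h1 := nn_add_int (9 * (t - round t)) (9 * round t)
  have e : 9 * (t - round t) + ((9 * round t : ℤ) : ℝ) = 9 * t := by push_cast; ring
  rw [e] at h1
  rw [h1]
  have h2 : |9 * (t - round t)| < 1 / 2 := by
    rw [abs_mul, abs_of_nonneg (by norm_num : (0 : ℝ) ≤ 9)]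
    unfold nn at h
    linarith
  have h3 : round (9 * (t - round t)) = 0 := by
    rw [round_eq_zero_iff]
    rw [abs_lt] at h2
    constructor
    · linarith [h2.1]
    · exact h2.2
  unfold nn
  rw [h3]
  push_cast
  rw [sub_zero, abs_mul, abs_of_nonneg (by norm_num : (0 : ℝ) ≤ 9)]

/-- a fraction with denominator `q` which is not an integer -/
lemma nn_div_ge {q : ℕ} (hq : 0 < q) {c : ℤ} (h : ¬ (q : ℤ) ∣ c) : 1 / (q : ℝ) ≤ nn (c / q) := by
  have hq' : (0 : ℝ) < q := by exact_mod_cast hq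
  unfold nn
  set k := round ((c : ℝ) / q) with hk
  have h1 : c - q * k ≠ 0 := by
    intro h0
    exact h ⟨k, by linarith⟩
  have h2 : (1 : ℝ) ≤ |((c - q * k : ℤ) : ℝ)| := by
    have := Int.one_le_abs h1
    exact_mod_cast this
  rw [div_le_iff₀ hq']
  have h3 : |(c : ℝ) / q - k| * q = |((c - q * k : ℤ) : ℝ)| := by
    rw [← abs_of_pos hq', ← abs_mul, abs_of_pos hq']
    congr 1
    push_cast
    field_simp
  rw [h3]
  exact h2

/-- `QQ m θ = ∑_{i<m} ‖9^i θ‖²` -/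
noncomputable def QQ (m : ℕ) (θ : ℝ) : ℝ := ∑ i ∈ Finset.range m, nn (9 ^ i * θ) ^ 2

/-- `GG κ m θ = ∏_{i<m} exp (-κ ‖9^i θ‖²)` -/
noncomputable def GG (κ : ℝ) (m : ℕ) (θ : ℝ) : ℝ := Real.exp (-(κ * QQ m θ))

lemma QQ_nonneg (m : ℕ) (θ : ℝ) : 0 ≤ QQ m θ := Finset.sum_nonneg fun _ _ => sq_nonneg _

lemma GG_pos (κ : ℝ) (m : ℕ) (θ : ℝ) : 0 < GG κ m θ := Real.exp_pos _

lemma GG_le_one {κ : ℝ} (hκ : 0 ≤ κ) (m : ℕ) (θ : ℝ) : GG κ m θ ≤ 1 := by
  unfold GG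
  rw [Real.exp_le_one_iff]
  have := mul_nonneg hκ (QQ_nonneg m θ)
  linarith

lemma QQ_add (m₁ m₂ : ℕ) (θ : ℝ) : QQ (m₁ + m₂) θ = QQ m₁ θ + QQ m₂ (9 ^ m₁ * θ) := by
  unfold QQ
  rw [Finset.sum_range_add]
  congr 1
  refine Finset.sum_congr rfl fun i _ => ?_
  congr 2
  rw [pow_add]
  ring

lemma QQ_mono {m₁ m₂ : ℕ} (h : m₁ ≤ m₂) (θ : ℝ) : QQ m₁ θ ≤ QQ m₂ θ := by
  obtain ⟨k, rfl⟩ := Nat.exists_eq_add_of_le h
  rw [QQ_add]
  have := QQ_nonneg k (9 ^ m₁ * θ)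
  linarith

lemma QQ_mul (k L : ℕ) (θ : ℝ) : QQ (k * L) θ = ∑ j ∈ Finset.range k, QQ L (9 ^ (j * L) * θ) := by
  induction k with
  | zero => simp [QQ]
  | succ k ih =>
    rw [Finset.sum_range_succ, ← ih, Nat.succ_mul, QQ_add]

lemma GG_add (κ : ℝ) (m₁ m₂ : ℕ) (θ : ℝ) :
    GG κ (m₁ + m₂) θ = GG κ m₁ θ * GG κ m₂ (9 ^ m₁ * θ) := by
  unfold GG
  rw [QQ_add, ← Real.exp_add]
  congr 1
  ring

lemma GG_anti {κ : ℝ} (hκ : 0 ≤ κ) {m₁ m₂ : ℕ} (h : m₁ ≤ m₂) (θ : ℝ) : GG κ m₂ θ ≤ GG κ m₁ θ := by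
  unfold GG
  rw [Real.exp_le_exp]
  have := mul_le_mul_of_nonneg_left (QQ_mono h θ) hκ
  linarith

lemma QQ_add_int (m : ℕ) (θ : ℝ) (k : ℤ) : QQ m (θ + k) = QQ m θ := by
  unfold QQ
  refine Finset.sum_congr rfl fun i _ => ?_
  congr 1
  have : 9 ^ i * (θ + k) = 9 ^ i * θ + ((9 ^ i * k : ℤ) : ℝ) := by push_cast; ring
  rw [this, nn_add_int]

lemma GG_add_int (κ : ℝ) (m : ℕ) (θ : ℝ) (k : ℤ) : GG κ m (θ + k) = GG κ m θ := by
  unfold GG
  rw [QQ_add_int]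

end Pool.Agent.Lib.MP_f75418_nt
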