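import Pool.Agent.Lib.MP_f75418_nt.AP.Level
import Pool.Agent.Lib.MP_f75418_nt.AP.FLG
import Pool.Agent.Lib.MP_7b7e48_nt.GT.RoughCount

/-!
# Antipalindromic numbers without small prime factors
-/

open Finset

namespace Pool.Agent.Lib.MP_f75418_nt

open Pool.Agent.Lib.GT (pr V NJ V_inv_le V_pos K₀)

/-- the primes in `[5, z]` -/
def P5 (z : ℕ) : Finset ℕ := (Finset.Icc 5 z).filter Nat.Prime

lemma mem_P5 {z p : ℕ} : p ∈ P5 z ↔ (5 ≤ p ∧ p ≤ z) ∧ p.Prime := by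
  unfold P5
  rw [Finset.mem_filter, Finset.mem_Icc]

lemma P5_sub (z : ℕ) : P5 z ⊆ pr z := by
  intro p hp
  rw [mem_P5] at hp
  unfold pr
  rw [Finset.mem_filter, Finset.mem_range]
  exact ⟨by omega, hp.2⟩

lemma fac_mem {p : ℕ} (hp : p.Prime) : 0 ≤ 1 - 1 / (p : ℝ) ∧ 1 - 1 / (p : ℝ) ≤ 1 := by
  have h2 : (2 : ℝ) ≤ p := by exact_mod_cast hp.two_le
  have h1 : 1 / (p : ℝ) ≤ 1 / 2 := one_div_le_one_div_of_le (by norm_num) h2
  have h0 : 0 ≤ 1 / (p : ℝ) := by positivity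
  constructor <;> linarith

lemma V_le_P5 (z : ℕ) : V z ≤ ∏ p ∈ P5 z, (1 - 1 / (p : ℝ)) := by
  classical
  unfold V
  rw [← Finset.prod_sdiff (P5_sub z)]
  have h1 : ∏ p ∈ pr z \ P5 z, (1 - 1 / (p : ℝ)) ≤ 1 := by
    refine Finset.prod_le_one (fun p hp => ?_) (fun p hp => ?_)
    · have := (Finset.mem_filter.mp (Finset.mem_sdiff.mp hp).1).2
      exact (fac_mem this).1
    · have := (Finset.mem_filter.mp (Finset.mem_sdiff.mp hp).1).2
      exact (fac_mem this).2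
  have h2 : 0 ≤ ∏ p ∈ P5 z, (1 - 1 / (p : ℝ)) :=
    Finset.prod_nonneg fun p hp => (fac_mem (mem_P5.mp hp).2).1
  calc (∏ p ∈ pr z \ P5 z, (1 - 1 / (p : ℝ))) * ∏ p ∈ P5 z, (1 - 1 / (p : ℝ))
      ≤ 1 * ∏ p ∈ P5 z, (1 - 1 / (p : ℝ)) := mul_le_mul_of_nonneg_right h1 h2
    _ = _ := one_mul _

lemma P5_le_V {z : ℕ} (hz : 3 ≤ z) : ∏ p ∈ P5 z, (1 - 1 / (p : ℝ)) ≤ 3 * V z := by
  classical
  unfold V
  rw [← Finset.prod_sdiff (P5_sub z)]
  have h1 : pr z \ P5 z = {2, 3} := by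
    ext p
    rw [Finset.mem_sdiff, mem_P5, Finset.mem_insert, Finset.mem_singleton]
    unfold pr
    rw [Finset.mem_filter, Finset.mem_range]
    constructor
    · rintro ⟨⟨h1, h2⟩, h3⟩
      have h4 : p < 5 := by
        by_contra hcon
        exact h3 ⟨⟨by omega, by omega⟩, h2⟩
      have h5 := h2.two_le
      have h6 : p ≠ 4 := by rintro rfl; exact absurd h2 (by norm_num)
      omega
    · rintro (rfl | rfl)
      · exact ⟨⟨by omega, Nat.prime_two⟩, by omega⟩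
      · exact ⟨⟨by omega, Nat.prime_three⟩, by omega⟩
  rw [h1, Finset.prod_pair (by norm_num)]
  apply le_of_eq
  push_cast
  ring

/-- the number of antipalindromic numbers `av n b` without prime factors in `[5, z]` -/
def sif (n z : ℕ) : ℕ :=
  ((Finset.univ : Finset (Fin n → Fin 3)).filter (fun b => ∀ r ∈ P5 z, ¬ r ∣ av n b)).card

/-- both bounds with an explicit error term -/
theorem sif_bounds : ∃ b : ℕ, 1 ≤ b ∧ ∃ C : ℝ, 0 < C ∧ ∀ n z : ℕ, 2 ≤ z →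
    ((z ^ (12 * b) : ℕ) : ℝ) ≤ Real.exp (n / 20000) →
    (1 / 2) * (3 ^ n * ∏ p ∈ P5 z, (1 - 1 / (p : ℝ))) -
      C * (NJ z + 1) * 3 ^ n * Real.exp (-(Real.sqrt n / 200)) ≤ sif n z ∧
    (sif n z : ℝ) ≤ 2 * (3 ^ n * ∏ p ∈ P5 z, (1 - 1 / (p : ℝ))) +
      C * (NJ z + 1) * 3 ^ n * Real.exp (-(Real.sqrt n / 200)) := by
  classical
  obtain ⟨C, hC, hlev⟩ := level
  have hK0 : 0 < K₀ := mul_pos Pool.Agent.Lib.GT.κ₀_pos (Real.exp_pos _)
  obtain ⟨b, hb⟩ : ∃ b : ℕ, K₀ * (1 / 2) ^ (b + 1) ≤ 1 / 2 := by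
    obtain ⟨b, hb⟩ := exists_pow_lt_of_lt_one (show (0 : ℝ) < 1 / (2 * K₀) by positivity)
      (show (1 / 2 : ℝ) < 1 by norm_num)
    refine ⟨b, ?_⟩
    have h1 : (1 / 2 : ℝ) ^ (b + 1) ≤ (1 / 2) ^ b := pow_le_pow_of_le_one (by norm_num) (by norm_num)
      (by omega)
    calc K₀ * (1 / 2) ^ (b + 1) ≤ K₀ * (1 / (2 * K₀)) :=
          mul_le_mul_of_nonneg_left (h1.trans hb.le) hK0.le
      _ = 1 / 2 := by field_simp
  refine ⟨b + 1, by omega, C, hC, ?_⟩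
  intro n z hz hzn
  have hP : ∀ r ∈ P5 z, r.Prime ∧ r ≤ z := fun r hr => ⟨(mem_P5.mp hr).2, (mem_P5.mp hr).1.2⟩
  have hfund := fund_general (show 1 ≤ b + 1 by omega) hz hP (Finset.univ : Finset (Fin n → Fin 3))
    (av n) (show (0 : ℝ) ≤ 3 ^ n by positivity)
  have herr : errSum z (b + 1) (P5 z) (Finset.univ : Finset (Fin n → Fin 3)) (av n) (3 ^ n) ≤
      C * 3 ^ n * Real.exp (-(Real.sqrt n / 200)) := by
    refine le_trans ?_ (hlev n (z ^ (12 * (b + 1))) hzn)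
    unfold errSum Ad
    refine Finset.sum_le_sum_of_subset_of_nonneg ?_ (fun _ _ _ => abs_nonneg _)
    intro d hd
    rw [Finset.mem_filter] at hd ⊢
    refine ⟨hd.1, ?_⟩
    have h2 : ¬ 2 ∣ d := fun h => by
      have := (mem_P5.mp (hd.2 2 Nat.prime_two h)).1.1
      omega
    have h3 : ¬ 3 ∣ d := fun h => by
      have := (mem_P5.mp (hd.2 3 Nat.prime_three h)).1.1
      omega
    have c2 : Nat.Coprime d 2 := ((Nat.Prime.coprime_iff_not_dvd Nat.prime_two).mpr h2).symm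
    have c3 : Nat.Coprime d 3 := ((Nat.Prime.coprime_iff_not_dvd Nat.prime_three).mpr h3).symm
    exact Nat.Coprime.mul_right c2 c3
  have hprod : 0 ≤ ∏ p ∈ P5 z, (1 - 1 / (p : ℝ)) :=
    Finset.prod_nonneg fun p hp => (fac_mem (mem_P5.mp hp).2).1
  have hX : 0 ≤ (3 : ℝ) ^ n * ∏ p ∈ P5 z, (1 - 1 / (p : ℝ)) := mul_nonneg (by positivity) hprod
  have hmain := mul_le_mul_of_nonneg_right hb hX
  have hNJ : (0 : ℝ) ≤ NJ z + 1 := by positivity
  have herr' := mul_le_mul_of_nonneg_left herr hNJ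
  have he : ((NJ z : ℝ) + 1) * (C * 3 ^ n * Real.exp (-(Real.sqrt n / 200))) =
      C * (NJ z + 1) * 3 ^ n * Real.exp (-(Real.sqrt n / 200)) := by ring
  rw [he] at herr'
  have hs : ((sif n z : ℕ) : ℝ) = (((Finset.univ : Finset (Fin n → Fin 3)).filter
    (fun b => ∀ r ∈ P5 z, ¬ r ∣ av n b)).card : ℝ) := rfl
  rw [← hs, abs_le] at hfund
  constructor
  · linarith [hfund.1]
  · linarith [hfund.2]

end Pool.Agent.Lib.MP_f75418_nt
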